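import Pool.Agent.TH188.ARC.A16

/-!
# Resolution by quadratic transforms at finitely many points

`M` is a finitely generated module; the local rings of the associated model are regular, except for
finitely many ones, with finite residue fields, all of whose quadratic transforms are regular. Then
a commensurable module gives a regular model.
-/

set_option autoImplicit false
set_option linter.unusedVariables false
set_option linter.unusedSectionVars false

namespace Pool.Agent.Y223.CC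

open IsLocalRing Pool.Agent.TH188.QS Pool.Agent.TH188.ARC Pool.Agent.W418.LU2
  Pool.Agent.H918R2.Quad

variable {O F : Type} [CommRing O] [Field F] [Algebra O F]

/-- A local ring with torsion residue units dominated by `W` whose quadratic transform is
regular. -/
structure Bd (O : Type) {F : Type} [CommRing O] [Field F] [Algebra O F] (W : ValuationSubring F)
    (Q : Subring F) : Prop where
  reg : IsRegularLocalRing (qt W.toSubring Q)
  pos : ∃ ϖ : O, algebraMap O F ϖ ≠ 0 ∧ W.valuation (algebraMap O F ϖ) < 1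
  tor : ∀ b ∈ Q, ¬ W.valuation b < 1 → ∃ k : ℕ, W.valuation (b ^ (k + 1) - 1) < 1

lemma exists_LR {W : ValuationSubring F} (hOW : ∀ o, algebraMap O F o ∈ W)
    {M : Submodule O F} (hM : M.FG) (hne : ∃ g ∈ M, g ≠ 0) : ∃ Q, LR W M Q := by
  obtain ⟨g, hg, hg0⟩ := hne
  obtain ⟨j, hj, hj0, hMj⟩ := exists_gen_max hOW hM hg hg0
  exact ⟨_, j, hj, hj0, hMj, rfl⟩

/-- One step. -/
theorem blow_step [IsNoetherianRing O] [IsDomain O] {M : Submodule O F} (hM : M.FG)
    (hne : ∃ g ∈ M, g ≠ 0) {Q₁ : Subring F} {V : ValuationSubring F}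
    (hOV : ∀ o, algebraMap O F o ∈ V) (hV : LR V M Q₁) (hb : Bd O V Q₁)
    {B : Set (Subring F)}
    (h : ∀ W : ValuationSubring F, (∀ o, algebraMap O F o ∈ W) → ∀ Q, LR W M Q →
      IsRegularLocalRing Q ∨ (Q ∈ B ∧ Bd O W Q)) :
    ∃ (D : ℕ) (M' : Submodule O F), 1 ≤ D ∧ M'.FG ∧ M' ≤ M ^ D ∧
      (∀ y ∈ M ^ D, ∃ s : O, s ≠ 0 ∧ s • y ∈ M') ∧ (∃ g ∈ M', g ≠ 0) ∧
      ∀ W : ValuationSubring F, (∀ o, algebraMap O F o ∈ W) → ∀ Q, LR W M' Q →
        IsRegularLocalRing Q ∨ (Q ∈ B \ {Q₁} ∧ Bd O W Q) := by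
  obtain ⟨ϖ, hϖ0, hϖ⟩ := hb.pos
  have hϖO : ϖ ≠ 0 := fun h => hϖ0 (by rw [h, map_zero])
  obtain ⟨D, M', hD, hM'fg, hle, hsm, hne', hstep⟩ := step_all_LR hOV hϖ0 hϖ hM hV (by
    intro j hj hj0 hMj b hbj hbV
    have hQ : LR V M (lo V.toSubring (chart O M j).toSubring) := ⟨j, hj, hj0, hMj, rfl⟩
    have hQ1 := hQ.unique hOV hV
    have hbQ : b ∈ Q₁ := by
      rw [← hQ1]
      exact le_lo _ _ hbj
    obtain ⟨k, hk⟩ := hb.tor b hbQ hbV
    refine ⟨b ^ k, Subalgebra.pow_mem _ hbj _, ?_⟩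
    rw [← pow_succ']
    exact hk)
  refine ⟨D, M', hD, hM'fg, hle, fun y hy => ⟨ϖ, hϖO, hsm y hy⟩, hne', ?_⟩
  intro W hOW Q' hQ'
  obtain ⟨Q, hQ⟩ := exists_LR hOW hM hne
  obtain ⟨h1, h2⟩ := hstep W hOW Q hQ
  by_cases hc : Q = Q₁
  · obtain ⟨⟨e, he⟩, hle', hic, hLR⟩ := h1 hc
    rw [hQ'.unique hOW hLR]
    left
    rcases h W hOW Q hQ with h3 | ⟨-, h3⟩
    · exact qt_reg hle' hic h3 he
    · exact h3.reg
  · rw [hQ'.unique hOW (h2 hc)]
    rcases h W hOW Q hQ with h3 | ⟨h3, h4⟩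
    · exact Or.inl h3
    · exact Or.inr ⟨⟨h3, hc⟩, h4⟩

/-- Resolution by quadratic transforms at finitely many points. -/
theorem blow_all [IsNoetherianRing O] [IsDomain O] (n : ℕ) : ∀ (B : Finset (Subring F)),
    B.card ≤ n → ∀ {M : Submodule O F}, M.FG → (∃ g ∈ M, g ≠ 0) →
    (∀ W : ValuationSubring F, (∀ o, algebraMap O F o ∈ W) → ∀ Q, LR W M Q →
      IsRegularLocalRing Q ∨ (Q ∈ B ∧ Bd O W Q)) →
    ∃ (D : ℕ) (M' : Submodule O F), 1 ≤ D ∧ M'.FG ∧ M' ≤ M ^ D ∧
      (∀ y ∈ M ^ D, ∃ s : O, s ≠ 0 ∧ s • y ∈ M') ∧ (∃ g ∈ M', g ≠ 0) ∧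
      ∀ W : ValuationSubring F, (∀ o, algebraMap O F o ∈ W) → ∀ Q, LR W M' Q →
        IsRegularLocalRing Q := by
  classical
  induction n with
  | zero =>
    intro B hB M hM hne h
    have hB0 : B = ∅ := Finset.card_eq_zero.1 (Nat.le_zero.1 hB)
    refine ⟨1, M, le_rfl, hM, by rw [pow_one], fun y hy => ⟨1, one_ne_zero, by
      rw [one_smul]; rwa [pow_one] at hy⟩, hne, ?_⟩
    intro W hOW Q hQ
    rcases h W hOW Q hQ with h1 | ⟨h1, -⟩
    · exact h1
    · rw [hB0] at h1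
      exact absurd h1 (Finset.notMem_empty _)
  | succ n ih =>
    intro B hB M hM hne h
    by_cases hall : ∀ W : ValuationSubring F, (∀ o, algebraMap O F o ∈ W) → ∀ Q, LR W M Q →
        IsRegularLocalRing Q
    · exact ⟨1, M, le_rfl, hM, by rw [pow_one], fun y hy => ⟨1, one_ne_zero, by
        rw [one_smul]; rwa [pow_one] at hy⟩, hne, hall⟩
    · push Not at hall
      obtain ⟨V, hOV, Q₁, hQ₁, hnr⟩ := hall
      obtain ⟨hQB, hb⟩ := (h V hOV Q₁ hQ₁).resolve_left hnr
      obtain ⟨D, M', hD, hM'fg, hle, hsm, hne', hstep⟩ := blow_step hM hne hOV hQ₁ hb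
        (B := (B : Set (Subring F))) (fun W hOW Q hQ => by
          rcases h W hOW Q hQ with h1 | ⟨h1, h2⟩
          · exact Or.inl h1
          · exact Or.inr ⟨h1, h2⟩)
      obtain ⟨D', M'', hD', hM''fg, hle', hsm', hne'', hstep'⟩ := ih (B.erase Q₁) (by
        rw [Finset.card_erase_of_mem hQB]
        omega) hM'fg hne' (fun W hOW Q hQ => by
          rcases hstep W hOW Q hQ with h1 | ⟨h1, h2⟩
          · exact Or.inl h1
          · exact Or.inr ⟨Finset.mem_erase.2 ⟨h1.2, h1.1⟩, h2⟩)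
      refine ⟨D * D', M'', Nat.mul_pos hD hD', hM''fg, ?_, ?_, hne'', hstep'⟩
      · rw [pow_mul]
        exact hle'.trans (pow_le_pow' hle D')
      · intro y hy
        rw [pow_mul] at hy
        obtain ⟨s, hs, hsy⟩ := exists_smul_mem_pow' hsm D' y hy
        obtain ⟨t, ht, hty⟩ := hsm' _ hsy
        exact ⟨t * s, mul_ne_zero ht hs, by rw [mul_smul]; exact hty⟩

/-- Valuations with given centre. -/
theorem exists_val (B : Subring F) (q : Ideal B) [q.IsPrime] :
    ∃ W : ValuationSubring F, B ≤ W.toSubring ∧ ∀ b : B, b ∈ q ↔ W.valuation (b : F) < 1 := by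
  obtain ⟨W, hW⟩ := (LocalSubring.ofPrime B q).exists_le_valuationSubring
  have hBW : B ≤ W.toSubring := (LocalSubring.le_ofPrime B q).trans hW.1
  refine ⟨W, hBW, fun b => ?_⟩
  have hloc := hW.2
  constructor
  · intro hb
    have h1 := ((local_hom_TFAE (Subring.inclusion hW.1)).out 0 2).mp hloc
    have h2 : (algebraMap B (LocalSubring.ofPrime B q).toSubring b) ∈
        maximalIdeal (LocalSubring.ofPrime B q).toSubring := by
      rw [← IsLocalization.AtPrime.map_eq_maximalIdeal q]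
      exact Ideal.mem_map_of_mem _ hb
    have h3 := h1 (Ideal.mem_map_of_mem _ h2)
    have h4 := (W.valuation_lt_one_iff (Subring.inclusion hW.1
      (algebraMap B (LocalSubring.ofPrime B q).toSubring b))).1 h3
    exact h4
  · intro hb
    by_contra hbq
    have h1 : IsUnit (algebraMap B (LocalSubring.ofPrime B q).toSubring b) :=
      IsLocalization.map_units (M := q.primeCompl) _ ⟨b, hbq⟩
    have h2 := h1.map (Subring.inclusion hW.1)
    have h3 := (W.valuation_lt_one_iff (Subring.inclusion hW.1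
      (algebraMap B (LocalSubring.ofPrime B q).toSubring b))).2 hb
    exact (mem_nonunits_iff.1 ((mem_maximalIdeal _).1 h3)) h2

/-- From valuations to the primes of the charts. -/
theorem chart_regular {M : Submodule O F}
    (h : ∀ W : ValuationSubring F, (∀ o, algebraMap O F o ∈ W) → ∀ Q, LR W M Q →
      IsRegularLocalRing Q) (f : F) (hf : f ∈ M) (hf0 : f ≠ 0) (q : Ideal (chart O M f))
    [q.IsPrime] : IsRegularLocalRing (Localization.AtPrime q) := by
  obtain ⟨W, hBW, hq⟩ := exists_val (chart O M f).toSubring q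
  have hOW : ∀ o, algebraMap O F o ∈ W := fun o => hBW (Subalgebra.algebraMap_mem _ o)
  have hMW : ∀ m ∈ M, m / f ∈ W := fun m hm => hBW (Algebra.subset_adjoin ⟨m, hm, rfl⟩)
  have h1 := h W hOW _ ⟨f, hf, hf0, hMW, rfl⟩
  obtain ⟨P, hP, hPm, hPreg⟩ := regular_centre' hBW h1
  have hPq : P = q := by
    ext b
    rw [hPm]
    exact (hq b).symm
  subst hPq
  exact hPreg

end Pool.Agent.Y223.CC
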