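import Pool.Agent.Y223.CC.Deriv
import Pool.Agent.TH188.QS.Step

/-!
# The strict transform of a hypersurface with a given tangent cone
-/

set_option autoImplicit false
set_option linter.unusedVariables false
set_option linter.unusedSectionVars false

universe u v

namespace Pool.Agent.Y223.CC

open IsLocalRing Pool.Agent.W418.LU2 Pool.Agent.TH188.QS

variable {F : Type u} [Field F] {A P : Subring F} {ι : Type} [Fintype ι] {x : ι → F}

/-- The value of the polynomial `q` at the quotients of the parameters. -/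
noncomputable def va (P : Subring F) (x : ι → F) (j : ι) (q : MvPolynomial ι P) : F :=
  MvPolynomial.eval₂ P.subtype (fun i => x i * (x j)⁻¹) q

/-- The quadratic transform, with respect to generators of the maximal ideal. -/
theorem qt_gen (hPA : P ≤ A) {j : ι} (hx : ∀ i, x i ∈ P) (hxu : ∀ i, (x i)⁻¹ ∉ A)
    (hM : Mi A P (x j))
    (hgen : ∀ y ∈ P, NU A y → ∃ c : ι → F, (∀ i, c i ∈ P) ∧ y = ∑ i, c i * x i) :
    qt A P = lo A (Subring.closure ((P : Set F) ∪ {t | ∃ i, t = x i * (x j)⁻¹})) := by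
  rw [qt_eq hPA hM]
  apply le_antisymm
  · refine lo_mono ?_
    rw [Subring.closure_le]
    rintro t (ht | ⟨y, hy, hyn, rfl⟩)
    · exact Subring.subset_closure (Or.inl ht)
    · obtain ⟨c, hc, rfl⟩ := hgen y hy hyn
      rw [Finset.sum_mul]
      refine Subring.sum_mem _ fun i _ => ?_
      rw [mul_assoc]
      exact Subring.mul_mem _ (Subring.subset_closure (Or.inl (hc i)))
        (Subring.subset_closure (Or.inr ⟨i, rfl⟩))
  · refine lo_mono (Subring.closure_mono ?_)
    rintro t (ht | ⟨i, rfl⟩)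
    · exact Or.inl ht
    · exact Or.inr ⟨x i, hx i, fun h => hxu i h.2, rfl⟩

theorem cone_mem (hA : Loc A) (h : RegP A P x) {j k : ι} (hkj : k ≠ j)
    (hxu : ∀ i, (x i)⁻¹ ∉ A) (hM : Mi A P (x j))
    (hgen : ∀ y ∈ P, NU A y → ∃ c : ι → F, (∀ i, c i ∈ P) ∧ y = ∑ i, c i * x i)
    [IsLocalRing (qt A P)] (q : MvPolynomial ι P) (h0 : va P x j q ∈ qt A P)
    (hq : (⟨va P x j q, h0⟩ : qt A P) ∈ maximalIdeal (qt A P) ^ 2) :
    NU A (va P x j (MvPolynomial.pderiv k q)) := by
  classical
  have hmin : ∀ i, x i * (x j)⁻¹ ∈ A := fun i => hM.min _ (h.mem i) fun h => hxu i h.2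
  let s : Finset ι := Finset.univ.filter fun i => i ≠ j ∧ i ≠ k
  have hs : ∀ i ∈ s, i ≠ j ∧ (x i)⁻¹ ∉ A ∧ x i * (x j)⁻¹ ∈ A := fun i hi =>
    ⟨(Finset.mem_filter.1 hi).2.1, hxu i, hmin i⟩
  have hjs : j ∉ s := fun h => (Finset.mem_filter.1 h).2.1 rfl
  have hks : k ∉ s := fun h => (Finset.mem_filter.1 h).2.2 rfl
  have R1 := regP_qt hA h j (hxu j) s hs
  set S₁ := Subring.closure ((P : Set F) ∪ {t | ∃ i ∈ s, t = x i * (x j)⁻¹}) with hS₁
  have hS₁A : S₁ ≤ A := by
    rw [hS₁, Subring.closure_le]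
    rintro t (ht | ⟨i, hi, rfl⟩)
    · exact h.PA ht
    · exact hmin i
  have hPS : P ≤ S₁ := fun y hy => Subring.subset_closure (Or.inl hy)
  have e1 : (if k ∈ s then x k * (x j)⁻¹ else x k) * (if j ∈ s then x j * (x j)⁻¹ else x j)⁻¹ =
      x k * (x j)⁻¹ := by rw [if_neg hjs, if_neg hks]
  have ad : Adj A S₁ (Subring.closure (insert ((if k ∈ s then x k * (x j)⁻¹ else x k) *
      (if j ∈ s then x j * (x j)⁻¹ else x j)⁻¹) (S₁ : Set F)))
      ((if k ∈ s then x k * (x j)⁻¹ else x k) *
      (if j ∈ s then x j * (x j)⁻¹ else x j)⁻¹) := by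
    refine adj_closure hA hS₁A ?_
    rw [e1]
    exact hmin k
  set S' := Subring.closure (insert ((if k ∈ s then x k * (x j)⁻¹ else x k) *
      (if j ∈ s then x j * (x j)⁻¹ else x j)⁻¹) (S₁ : Set F)) with hS'
  have hQ : lo A S' = qt A P := by
    rw [qt_gen h.PA h.mem hxu hM hgen]
    congr 1
    apply le_antisymm
    · rw [hS', Subring.closure_le]
      rintro t (rfl | ht)
      · rw [e1]
        exact Subring.subset_closure (Or.inr ⟨k, rfl⟩)
      · refine (Subring.closure_mono ?_ : S₁ ≤ _) ht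
        rintro t (ht | ⟨i, -, rfl⟩)
        · exact Or.inl ht
        · exact Or.inr ⟨i, rfl⟩
    · rw [Subring.closure_le]
      rintro t (ht | ⟨i, rfl⟩)
      · exact ad.le (hPS ht)
      · by_cases hij : i = j
        · rw [hij, mul_inv_cancel₀ (h.ne j)]
          exact Subring.one_mem _
        · by_cases hik : i = k
          · have := ad.tS
            rw [e1] at this
            rw [hik]
            exact this
          · exact ad.le (Subring.subset_closure (Or.inr ⟨i, Finset.mem_filter.2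
              ⟨Finset.mem_univ _, hij, hik⟩, rfl⟩))
  -- the polynomial in one variable
  have hPl : ∀ a : P, (a : F) ∈ lo A S₁ := fun a => le_lo _ _ (hPS a.2)
  let c₀ : P →+* lo A S₁ := P.subtype.codRestrict (lo A S₁) hPl
  have hτ : ∀ i, i ≠ j → i ≠ k → x i * (x j)⁻¹ ∈ lo A S₁ := fun i h1 h2 =>
    le_lo _ _ (Subring.subset_closure (Or.inr ⟨i, Finset.mem_filter.2
      ⟨Finset.mem_univ _, h1, h2⟩, rfl⟩))
  let T : ι → Polynomial (lo A S₁) := fun i => if hk : i = k then Polynomial.X else
    if hj : i = j then 1 else Polynomial.C ⟨x i * (x j)⁻¹, hτ i hj hk⟩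
  let E : MvPolynomial ι P →+* Polynomial (lo A S₁) :=
    MvPolynomial.eval₂Hom (Polynomial.C.comp c₀) T
  have hTk : T k = Polynomial.X := dif_pos rfl
  have hTj : T j = 1 := (dif_neg (Ne.symm hkj)).trans (dif_pos rfl)
  have hTi : ∀ i (h1 : i ≠ j) (h2 : i ≠ k), T i = Polynomial.C ⟨x i * (x j)⁻¹, hτ i h1 h2⟩ := by
    intro i h1 h2
    exact (dif_neg h2).trans (dif_neg h1)
  have hT : ∀ i, (ad.ev (T i) : F) = x i * (x j)⁻¹ := by
    intro i
    by_cases h1 : i = k
    · rw [h1, hTk, ad.ev_X, e1]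
    · by_cases h2 : i = j
      · rw [h2, hTj, map_one, mul_inv_cancel₀ (h.ne j)]
        rfl
      · rw [hTi i h2 h1, ad.ev_C]
  have hE : ∀ p, (ad.ev (E p) : F) = va P x j p := by
    intro p
    induction p using MvPolynomial.induction_on with
    | C a =>
      change (ad.ev (MvPolynomial.eval₂ _ _ (MvPolynomial.C a)) : F) = MvPolynomial.eval₂ _ _ _
      rw [MvPolynomial.eval₂_C, MvPolynomial.eval₂_C]
      change (ad.ev (Polynomial.C (c₀ a)) : F) = _
      rw [ad.ev_C]
      rfl
    | add a b ha hb =>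
      rw [map_add, map_add, Subring.coe_add, ha, hb]
      exact (MvPolynomial.eval₂_add _ _).symm
    | mul_X a i ha =>
      rw [map_mul, map_mul, Subring.coe_mul, ha]
      have h1 : E (MvPolynomial.X i) = T i := MvPolynomial.eval₂_X _ _ _
      rw [h1, hT]
      unfold va
      rw [MvPolynomial.eval₂_mul, MvPolynomial.eval₂_X]
  have hdT : ∀ i, Polynomial.derivative (T i) = if i = k then 1 else 0 := by
    intro i
    by_cases h1 : i = k
    · rw [h1, hTk, if_pos rfl]
      exact Polynomial.derivative_X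
    · rw [if_neg h1]
      by_cases h2 : i = j
      · rw [h2, hTj]
        exact Polynomial.derivative_one
      · rw [hTi i h2 h1]
        exact Polynomial.derivative_C
  have hdE : ∀ p, Polynomial.derivative (E p) = E (MvPolynomial.pderiv k p) := by
    intro p
    induction p using MvPolynomial.induction_on with
    | C a =>
      have h1 : E (MvPolynomial.C a) = Polynomial.C (c₀ a) := MvPolynomial.eval₂_C _ _ _
      rw [h1, Polynomial.derivative_C, MvPolynomial.pderiv_C, map_zero]
    | add a b ha hb => rw [map_add, map_add, map_add, map_add, ha, hb]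
    | mul_X a i ha =>
      have h1 : ∀ i, E (MvPolynomial.X i) = T i := fun i => MvPolynomial.eval₂_X _ _ _
      rw [map_mul, Polynomial.derivative_mul, ha, Derivation.leibniz, smul_eq_mul, smul_eq_mul,
        map_add, map_mul, map_mul, h1, hdT, MvPolynomial.pderiv_X]
      by_cases hik : i = k
      · subst hik
        rw [if_pos rfl, Pi.single_eq_same, map_one]
        ring
      · rw [if_neg hik, Pi.single_eq_of_ne hik, map_zero]
        ring
  have key : ∀ (Q : Subring F) (hQ : lo A S' = Q) [IsLocalRing Q] (y : F) (hy : y ∈ Q),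
      (⟨y, hy⟩ : Q) ∈ maximalIdeal Q ^ 2 → y = va P x j q → NU A (va P x j (MvPolynomial.pderiv k q))
      := by
    rintro Q rfl _ y hy hyq rfl
    have h1 : ad.ev (E q) ∈ maximalIdeal (lo A S') ^ 2 := by
      have h2 : ad.ev (E q) = ⟨va P x j q, hy⟩ := Subtype.ext (hE q)
      rw [h2]
      exact hyq
    have h2 := deriv_mem hA hS₁A R1 hkj (by rw [if_neg hks]; exact hxu k)
      (by rw [if_neg hjs]; exact hxu j) ad (E q) h1
    rw [hdE, mem_maximalIdeal, mem_nonunits_iff, isUnit_lo_iff ad.SA, hE] at h2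
    exact h2
  exact key (qt A P) hQ _ h0 hq rfl

end Pool.Agent.Y223.CC
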