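import Pool.Agent.Y223.CC.Params

/-!
# The quadratic transforms of cyclic coverings at the nondegenerate critical points
-/

set_option autoImplicit false
set_option linter.unusedVariables false
set_option linter.unusedSectionVars false

universe u v

namespace Pool.Agent.Y223.CC

open IsLocalRing Pool.Agent.W418.LU2 Pool.Agent.TH188.QS

section quad

variable {S F K : Type u} [CommRing S] [IsDomain S] [Field F] [Algebra S F] [IsFractionRing S F]
  [Field K] {φ : S →+* K} {V : ValuationSubring K} {𝔔 : Ideal S}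

/-- Elements of the square of the maximal ideal as quadratic forms in the parameters. -/
theorem exists_quad (h𝔔 : ∀ s, s ∈ 𝔔 ↔ V.valuation (φ s) < 1) (hφV : ∀ s, φ s ∈ V)
    [IsLocalRing (lo (AA F φ V) (algebraMap S F).range)] {ι : Type} [Fintype ι] [DecidableEq ι]
    (x : ι → S)
    (hspan : Ideal.span (Set.range fun i => al F φ V (x i)) =
      maximalIdeal (lo (AA F φ V) (algebraMap S F).range)) (g : S)
    (hg : al F φ V g ∈ maximalIdeal (lo (AA F φ V) (algebraMap S F).range) ^ 2) :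
    ∃ (u : S) (c : ι → ι → S), u ∉ 𝔔 ∧ u * g = ∑ a, ∑ b, c a b * x a * x b := by
  have hp := prime_𝔔 h𝔔
  have h1 : (1 : S) ∉ 𝔔 := (Ideal.ne_top_iff_one 𝔔).1 hp.ne_top
  have key : ∀ z ∈ maximalIdeal (lo (AA F φ V) (algebraMap S F).range) ^ 2,
      ∃ (u : S) (c : ι → ι → S), u ∉ 𝔔 ∧ al F φ V u * z = al F φ V (∑ a, ∑ b, c a b * x a * x b) := by
    intro z hz
    rw [pow_two, ← hspan, Ideal.span_mul_span'] at hz
    induction hz using Submodule.span_induction with
    | mem z hz =>
      obtain ⟨_, ⟨a₀, rfl⟩, _, ⟨b₀, rfl⟩, rfl⟩ := hz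
      refine ⟨1, fun a b => if a = a₀ then (if b = b₀ then 1 else 0) else 0, h1, ?_⟩
      rw [map_one, one_mul]
      change al F φ V (x a₀) * al F φ V (x b₀) = _
      rw [← map_mul]
      congr 1
      rw [Finset.sum_eq_single a₀, Finset.sum_eq_single b₀]
      · beta_reduce
        rw [if_pos rfl, if_pos rfl, one_mul]
      · intro b _ hb
        beta_reduce
        rw [if_pos rfl, if_neg hb, zero_mul, zero_mul]
      · intro h; exact absurd (Finset.mem_univ _) h
      · intro a _ ha
        refine Finset.sum_eq_zero fun b _ => ?_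
        beta_reduce
        rw [if_neg ha, zero_mul, zero_mul]
      · intro h; exact absurd (Finset.mem_univ _) h
    | zero =>
      refine ⟨1, fun _ _ => 0, h1, ?_⟩
      rw [mul_zero]
      simp
    | add z z' _ _ hz hz' =>
      obtain ⟨u, c, hu, h2⟩ := hz
      obtain ⟨u', c', hu', h3⟩ := hz'
      refine ⟨u * u', fun a b => u' * c a b + u * c' a b, fun h => (hp.mem_or_mem h).elim hu hu',
        ?_⟩
      have h4 : (∑ a, ∑ b, (u' * c a b + u * c' a b) * x a * x b) =
          u' * (∑ a, ∑ b, c a b * x a * x b) + u * (∑ a, ∑ b, c' a b * x a * x b) := by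
        rw [Finset.mul_sum, Finset.mul_sum, ← Finset.sum_add_distrib]
        refine Finset.sum_congr rfl fun a _ => ?_
        rw [Finset.mul_sum, Finset.mul_sum, ← Finset.sum_add_distrib]
        refine Finset.sum_congr rfl fun b _ => ?_
        ring
      rw [h4, map_add, map_mul, map_mul, map_mul, ← h2, ← h3]
      ring
    | smul r z _ hz =>
      obtain ⟨u, c, hu, h2⟩ := hz
      obtain ⟨n, -, d, hd, h3⟩ := (mem_pow_P h𝔔 hφV 0 r).1 (by rw [pow_zero, Ideal.one_eq_top]; exact Submodule.mem_top)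
      refine ⟨d * u, fun a b => n * c a b, fun h => (hp.mem_or_mem h).elim hd hu, ?_⟩
      have h4 : (∑ a, ∑ b, (n * c a b) * x a * x b) = n * (∑ a, ∑ b, c a b * x a * x b) := by
        rw [Finset.mul_sum]
        refine Finset.sum_congr rfl fun a _ => ?_
        rw [Finset.mul_sum]
        refine Finset.sum_congr rfl fun b _ => ?_
        ring
      rw [h4, map_mul, map_mul, ← h2, ← h3, smul_eq_mul]
      ring
  obtain ⟨u, c, hu, h2⟩ := key _ hg
  refine ⟨u, c, hu, ?_⟩
  apply IsFractionRing.injective S F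
  rw [map_mul]
  have h3 := congrArg Subtype.val h2
  exact h3

end quad

section crit

variable {A K : Type u} [CommRing A] [IsDomain A] [IsRegularRing A] [Field K]
  {φ : Polynomial A →+* K} {V : ValuationSubring K} {𝔔 : Ideal (Polynomial A)}

lemma val_unit {V : ValuationSubring K} {x : K} (hx : x ∈ V) (h : ¬ V.valuation x < 1) :
    V.valuation x = 1 := le_antisymm ((V.valuation_le_one_iff _).2 hx) (not_lt.1 h)

/-- The extension of a derivation to the coefficients of polynomials. -/
theorem exists_mapCoeffs {A : Type u} [CommRing A] (D : Derivation ℤ A A) :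
    ∃ δ : Derivation ℤ (Polynomial A) (Polynomial A), δ Polynomial.X = 0 ∧
      ∀ a, δ (Polynomial.C a) = Polynomial.C (D a) := by
  letI : Differential A := ⟨D⟩
  exact ⟨Differential.mapCoeffs, Differential.mapCoeffs_X, fun a => Differential.mapCoeffs_C a⟩

/-- The quadratic transforms at the nondegenerate critical points. -/
theorem critical (h𝔔 : ∀ s, s ∈ 𝔔 ↔ V.valuation (φ s) < 1) (hφV : ∀ s, φ s ∈ V)
    (𝔮 : Ideal A) [𝔮.IsMaximal] (hq : ∀ a, Polynomial.C a ∈ 𝔔 ↔ a ∈ 𝔮)
    (e : ℕ) (he : 2 ≤ e) (f : A) (hrel : φ (Polynomial.X ^ e - Polynomial.C f) = 0)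
    (hgen : ∀ s, φ s = 0 → ∃ t, φ t ≠ 0 ∧ t * s ∈ Ideal.span {Polynomial.X ^ e - Polynomial.C f})
    (hX : Polynomial.X ∉ 𝔔) (heq : (e : A) ∈ 𝔮) (he2 : ∀ h, h ∉ 𝔮 → h * (e : A) ∉ 𝔮 ^ 2)
    (hne0 : φ (Polynomial.C (e : A)) ≠ 0)
    (hcrit : ∀ a ∈ 𝔮, ∃ s, s ∉ 𝔮 ∧ s * a ∈ Ideal.span
      ({(e : A)} ∪ {b | ∃ D : Derivation ℤ A A, b = D f})) :
    IsRegularLocalRing (lo V.toSubring φ.range) ∨
      IsRegularLocalRing (qt V.toSubring (lo V.toSubring φ.range)) := by
  classical
  let F := FractionRing (Polynomial A)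
  set G : Polynomial A := Polynomial.X ^ e - Polynomial.C f with hG
  have hp𝔔 := prime_𝔔 h𝔔
  have hloc := isLocalRing_P (F := F) hφV
  have H0 := HS.init (F := F) hφV hrel hgen
  set P := lo (AA F φ V) (algebraMap (Polynomial A) F).range with hP
  have hGQ : G ∈ 𝔔 := by
    rw [h𝔔, hrel, map_zero]
    exact zero_lt_one
  have hmonic : G.Monic := Polynomial.monic_X_pow_sub_C f (by omega)
  have hne : 𝔔 ≠ 𝔮.map Polynomial.C := by
    intro h
    rw [h, Ideal.mem_map_C_iff] at hGQ
    have h1 := hGQ G.natDegree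
    rw [Polynomial.coeff_natDegree, hmonic.leadingCoeff] at h1
    exact (Ideal.ne_top_iff_one 𝔮).1 (Ideal.IsMaximal.ne_top inferInstance) h1
  obtain ⟨m, t, y, ht, hy, hspan, hind⟩ := exists_params (F := F) h𝔔 hφV 𝔮 hq hne (e : A) heq he2
    H0.reg
  set x : (Unit ⊕ Fin m) ⊕ Unit → Polynomial A :=
    Sum.elim (fun i => Polynomial.C (Sum.elim (fun _ : Unit => (e : A)) t i))
      (fun _ : Unit => y) with hx
  by_cases hf : al F φ V G ∈ maximalIdeal P ^ 2
  swap
  · exact Or.inl (H0.regular hloc hf)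
  obtain ⟨u, c, hu, huG⟩ := exists_quad (F := F) h𝔔 hφV x hspan G hf
  have hxQ : ∀ i, x i ∈ 𝔔 := by
    rintro ((i | i) | i)
    · exact (hq _).2 heq
    · exact (hq _).2 (ht i)
    · exact hy
  let x' : (Unit ⊕ Fin m) ⊕ Unit → F := fun i => algebraMap (Polynomial A) F (x i)
  have hreg := H0.reg
  have R : RegP (AA F φ V) P x' :=
    { PA := H0.PW
      ne := fun i h => hind.ne_zero i (Subtype.ext h)
      mem := fun i => H0.SP _
      reg := H0.reg
      inv := H0.ic
      ind := IndN.of_ind id Function.injective_id (fun i _ => ⟨i, rfl⟩) hind }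
  have hmax : ∀ z : P, z ∈ maximalIdeal P ↔ NU (AA F φ V) (z : F) := fun z => R.mem_max z
  have hxu : ∀ i, (x' i)⁻¹ ∉ AA F φ V := by
    intro i h1
    have h2 := (hmax (al F φ V (x i))).1 ((al_mem_max h𝔔 hφV).2 (hxQ i))
    exact h2 ⟨R.ne i, h1⟩
  have hgenP : ∀ z ∈ P, NU (AA F φ V) z →
      ∃ c : (Unit ⊕ Fin m) ⊕ Unit → F, (∀ i, c i ∈ P) ∧ z = ∑ i, c i * x' i := by
    intro z hz hn
    have h1 : (⟨z, hz⟩ : P) ∈ maximalIdeal P := (hmax _).2 hn
    rw [← hspan, Ideal.mem_span_range_iff_exists_fun] at h1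
    obtain ⟨d, hd⟩ := h1
    refine ⟨fun i => (d i : F), fun i => (d i).2, ?_⟩
    have h2 := congrArg P.subtype hd
    rw [map_sum] at h2
    exact h2.symm
  -- the parameter of least order
  obtain ⟨j₀, -, hj₀⟩ := Finset.exists_max_image Finset.univ
    (fun i => V.valuation (φ (x i))) ⟨Sum.inr (), Finset.mem_univ _⟩
  set e₀ : K := φ (x j₀) with he₀
  have hk0 : φ (x (Sum.inl (Sum.inl ()))) ≠ 0 := hne0
  have he₀0 : e₀ ≠ 0 := by
    intro h
    have h1 := hj₀ (Sum.inl (Sum.inl ())) (Finset.mem_univ _)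
    rw [h, map_zero] at h1
    exact hk0 ((Valuation.zero_iff _).1 (le_antisymm h1 zero_le))
  have he₀1 : V.valuation e₀ < 1 := (h𝔔 _).1 (hxQ j₀)
  have hdiv : ∀ i, φ (x i) * e₀⁻¹ ∈ V := by
    intro i
    rw [← V.valuation_le_one_iff, map_mul, map_inv₀]
    exact mul_inv_le_one_of_le₀ (hj₀ i (Finset.mem_univ _)) zero_le
  have hPr : ∀ i, Pr φ (x' i) (φ (x i)) := fun i => Pr.alg _
  have hMi : Mi V.toSubring (lo V.toSubring φ.range) e₀ := by
    refine ⟨le_lo _ _ ⟨_, rfl⟩, he₀0, ?_, ?_⟩
    · intro h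
      have h1 := (V.valuation_le_one_iff _).2 h
      rw [map_inv₀] at h1
      have h2 := (inv_le_one₀ ((Valuation.pos_iff _).2 he₀0)).1 h1
      exact absurd he₀1 (not_lt.2 h2)
    · intro z hz hzn
      rw [← H0.imQ] at hz
      obtain ⟨Z, hZ, hZz⟩ := hz
      obtain ⟨d, hd, hZd⟩ := hgenP Z hZ ((Pr.nu hZz).2 hzn)
      have hdv : ∀ i, ∃ w ∈ V, Pr φ (d i) w := fun i => H0.PW (hd i)
      choose w hwV hw using hdv
      have h1 : Pr φ Z (∑ i, w i * φ (x i)) := by
        rw [hZd]
        exact Pr.sum Finset.univ fun i _ => (hw i).mul (hPr i)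
      rw [hZz.unique h1, Finset.sum_mul]
      refine Subring.sum_mem _ fun i _ => ?_
      rw [mul_assoc]
      exact V.mul_mem _ _ (hwV i) (hdiv i)
  have hMi' : Mi V.toSubring (im φ P) e₀ := by rw [H0.imQ]; exact hMi
  have H1 := H0.next hMi (H0.SP (x j₀)) (Pr.alg _) hloc (n := 2) hf
  set f' : F := algebraMap (Polynomial A) F G * (algebraMap (Polynomial A) F (x j₀))⁻¹ ^ 2 with hf'
  have hreg' := H1.reg
  have R1 := H1.toUS.regP
  have hmax' : ∀ z : qt (AA F φ V) P, z ∈ maximalIdeal _ ↔ NU (AA F φ V) (z : F) :=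
    fun z => R1.mem_max z
  by_cases hf2 : (⟨f', H1.fP⟩ : qt (AA F φ V) P) ∈ maximalIdeal (qt (AA F φ V) P) ^ 2
  swap
  · exact Or.inr (H1.regular inferInstance hf2)
  exfalso
  -- derivations
  have key : ∀ δ : Polynomial A → Polynomial A, (∀ a b, δ (a + b) = δ a + δ b) →
      (∀ a b, δ (a * b) = a * δ b + b * δ a) → V.valuation (e₀⁻¹ * φ (δ G)) < 1 := by
    intro δ hδ1 hδ2
    have hD : Der φ (fun s => φ (δ s)) :=
      { add := fun a b => by rw [hδ1, map_add]
        mul := fun a b => by rw [hδ2, map_add, map_mul, map_mul] }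
    have hB0 : P ≤ BB F V hD 1 := bd_init hD hφV fun s => hφV _
    have hB1 := bd_next hD H0.PW hB0 hMi' (H0.SP (x j₀)) (Pr.alg _)
    have h1 := dd_sq hD H1.PW hmax' hB1 _ hf2
    have h2 : dd φ (fun s => φ (δ s)) f' = e₀⁻¹ ^ 2 * φ (δ G) := by
      rw [hf', dd_mul hD H0.f0 (((Pr.alg (x j₀)).inv he₀0).pow 2), zero_mul, zero_add, dd_alg hD]
    change V.valuation (1 * e₀ * dd φ (fun s => φ (δ s)) f') < 1 at h1
    rw [h2] at h1
    have h3 : 1 * e₀ * (e₀⁻¹ ^ 2 * φ (δ G)) = e₀⁻¹ * φ (δ G) := by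
      field_simp
    rwa [h3] at h1
  have hX1 : V.valuation (φ Polynomial.X) = 1 := val_unit (hφV _) fun h => hX ((h𝔔 _).2 h)
  have hke : V.valuation (e₀⁻¹ * φ (Polynomial.C (e : A))) < 1 := by
    have h1 := key (fun s => Polynomial.derivative s) (fun a b => Polynomial.derivative_add)
      (fun a b => by rw [Polynomial.derivative_mul]; ring)
    have h2 : Polynomial.derivative G = Polynomial.C (e : A) * Polynomial.X ^ (e - 1) := by
      rw [hG, Polynomial.derivative_sub, Polynomial.derivative_C, sub_zero,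
        Polynomial.derivative_X_pow]
    simp only [h2] at h1
    rw [map_mul φ, ← mul_assoc, map_mul, map_pow φ, map_pow, hX1, one_pow, mul_one] at h1
    exact h1
  have hkD : ∀ D : Derivation ℤ A A, V.valuation (e₀⁻¹ * φ (Polynomial.C (D f))) < 1 := by
    intro D
    obtain ⟨δ, hδX, hδC⟩ := exists_mapCoeffs D
    have h1 := key (fun s => δ s) (fun a b => map_add δ a b) (fun a b => by
      rw [Derivation.leibniz]; rfl)
    have h2 : δ G = - Polynomial.C (D f) := by
      rw [hG, map_sub, hδC, Derivation.leibniz_pow, hδX, smul_zero, smul_zero, zero_sub]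
    simp only [h2] at h1
    rw [map_neg, mul_neg, Valuation.map_neg] at h1
    exact h1
  have hkq : ∀ a ∈ 𝔮, V.valuation (e₀⁻¹ * φ (Polynomial.C a)) < 1 := by
    intro a ha
    obtain ⟨s, hs, hsa⟩ := hcrit a ha
    have h1 : ∀ b ∈ Ideal.span ({(e : A)} ∪ {b | ∃ D : Derivation ℤ A A, b = D f}),
        V.valuation (e₀⁻¹ * φ (Polynomial.C b)) < 1 := by
      intro b hb
      induction hb using Submodule.span_induction with
      | mem b hb =>
        rcases hb with hb | ⟨D, rfl⟩
        · rw [Set.mem_singleton_iff] at hb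
          rw [hb]
          exact hke
        · exact hkD D
      | zero => rw [map_zero, map_zero, mul_zero, map_zero]; exact zero_lt_one
      | add a b _ _ ha hb =>
        rw [map_add, map_add, mul_add]
        exact Valuation.map_add_lt _ ha hb
      | smul r b _ hb =>
        rw [smul_eq_mul, Polynomial.C_mul, map_mul φ]
        have h2 : e₀⁻¹ * (φ (Polynomial.C r) * φ (Polynomial.C b)) =
            (e₀⁻¹ * φ (Polynomial.C b)) * φ (Polynomial.C r) := by ring
        rw [h2, map_mul]
        exact (mul_le_of_le_one_right' ((V.valuation_le_one_iff _).2 (hφV _))).trans_lt hb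
    have h2 := h1 _ hsa
    have h3 : V.valuation (φ (Polynomial.C s)) = 1 :=
      val_unit (hφV _) fun h => hs ((hq s).1 ((h𝔔 _).2 h))
    rw [Polynomial.C_mul, map_mul φ] at h2
    have h4 : e₀⁻¹ * (φ (Polynomial.C s) * φ (Polynomial.C a)) =
        φ (Polynomial.C s) * (e₀⁻¹ * φ (Polynomial.C a)) := by ring
    rwa [h4, map_mul, h3, one_mul] at h2
  have hinl : ∀ i, V.valuation (e₀⁻¹ * φ (x (Sum.inl i))) < 1 := by
    intro i
    refine hkq _ ?_
    rcases i with i | i
    · exact heq
    · exact ht i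
  have hj : j₀ = Sum.inr () := by
    rcases j₀ with i | i
    · exfalso
      have h1 := hinl i
      rw [← he₀, inv_mul_cancel₀ he₀0, map_one] at h1
      exact lt_irrefl _ h1
    · rfl
  -- the tangent cone
  set k : (Unit ⊕ Fin m) ⊕ Unit := Sum.inl (Sum.inl ()) with hk
  have hkj : k ≠ j₀ := by
    rw [hj, hk]
    exact Sum.inl_ne_inr
  have hM : Mi (AA F φ V) P (x' j₀) := hMi'.lift H0.PW (H0.SP _) (Pr.alg _)
  let q : MvPolynomial ((Unit ⊕ Fin m) ⊕ Unit) P :=
    ∑ a, ∑ b, MvPolynomial.C (al F φ V (c a b)) * MvPolynomial.X a * MvPolynomial.X b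
  have hvaq : va P x' j₀ q = algebraMap (Polynomial A) F u * f' := by
    have h1 : va P x' j₀ q = ∑ a, ∑ b, algebraMap (Polynomial A) F (c a b) *
        (x' a * (x' j₀)⁻¹) * (x' b * (x' j₀)⁻¹) := by
      unfold va
      simp only [q]
      rw [MvPolynomial.eval₂_sum]
      refine Finset.sum_congr rfl fun a _ => ?_
      rw [MvPolynomial.eval₂_sum]
      refine Finset.sum_congr rfl fun b _ => ?_
      rw [MvPolynomial.eval₂_mul, MvPolynomial.eval₂_mul, MvPolynomial.eval₂_C,
        MvPolynomial.eval₂_X, MvPolynomial.eval₂_X]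
      rfl
    rw [h1, hf', ← mul_assoc, ← map_mul, huG, map_sum, Finset.sum_mul]
    refine Finset.sum_congr rfl fun a _ => ?_
    rw [map_sum, Finset.sum_mul]
    refine Finset.sum_congr rfl fun b _ => ?_
    rw [map_mul, map_mul]
    change _ = algebraMap (Polynomial A) F (c a b) * x' a * x' b * (x' j₀)⁻¹ ^ 2
    ring
  have huP' : algebraMap (Polynomial A) F u ∈ qt (AA F φ V) P := H1.SP u
  have h0 : va P x' j₀ q ∈ qt (AA F φ V) P := by
    rw [hvaq]
    exact Subring.mul_mem _ huP' H1.fP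
  have hcone := cone_mem loc_AA R hkj hxu hM hgenP q h0 (by
    have h1 : (⟨va P x' j₀ q, h0⟩ : qt (AA F φ V) P) = ⟨_, huP'⟩ * ⟨f', H1.fP⟩ :=
      Subtype.ext hvaq
    rw [h1]
    exact Ideal.mul_mem_left _ _ hf2)
  have hpd : MvPolynomial.pderiv k q = ∑ b, MvPolynomial.C (al F φ V (c k b + c b k)) *
      MvPolynomial.X b := by
    have h1 : ∀ a b, MvPolynomial.pderiv k (MvPolynomial.C (al F φ V (c a b)) *
        MvPolynomial.X a * MvPolynomial.X b : MvPolynomial ((Unit ⊕ Fin m) ⊕ Unit) P) =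
        (if a = k then MvPolynomial.C (al F φ V (c a b)) * MvPolynomial.X b else 0) +
        (if b = k then MvPolynomial.C (al F φ V (c a b)) * MvPolynomial.X a else 0) := by
      intro a b
      rw [mul_assoc, MvPolynomial.pderiv_C_mul, Derivation.leibniz, MvPolynomial.pderiv_X,
        MvPolynomial.pderiv_X]
      simp only [smul_eq_mul, Pi.single_apply]
      split_ifs <;> ring
    simp only [q]
    rw [map_sum]
    simp only [map_sum, h1, Finset.sum_add_distrib, Finset.sum_ite_irrel, Finset.sum_const_zero,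
      Finset.sum_ite_eq', Finset.mem_univ, if_true]
    rw [← Finset.sum_add_distrib]
    refine Finset.sum_congr rfl fun b _ => ?_
    rw [map_add, MvPolynomial.C_add]
    ring
  have hval : Pr φ (va P x' j₀ (MvPolynomial.pderiv k q))
      (∑ b, φ (c k b + c b k) * (φ (x b) * e₀⁻¹)) := by
    rw [hpd]
    unfold va
    rw [MvPolynomial.eval₂_sum]
    refine Pr.sum Finset.univ fun b _ => ?_
    rw [MvPolynomial.eval₂_mul, MvPolynomial.eval₂_C, MvPolynomial.eval₂_X]
    exact (Pr.alg _).mul ((hPr b).mul ((Pr.alg (x j₀)).inv he₀0))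
  have hval1 := nu_iff.1 ((Pr.nu hval).1 hcone)
  have hckj : c k j₀ + c j₀ k ∈ 𝔔 := by
    rw [h𝔔]
    rw [← Finset.add_sum_erase _ _ (Finset.mem_univ j₀), ← he₀, mul_inv_cancel₀ he₀0, mul_one]
      at hval1
    have h1 : V.valuation (∑ b ∈ Finset.univ.erase j₀, φ (c k b + c b k) * (φ (x b) * e₀⁻¹)) < 1 := by
      refine Valuation.map_sum_lt _ one_ne_zero fun b hb => ?_
      have hbj : b ≠ j₀ := (Finset.mem_erase.1 hb).1
      have h2 : V.valuation (φ (x b) * e₀⁻¹) < 1 := by
        rcases b with i | i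
        · rw [mul_comm]
          exact hinl i
        · exact absurd (hj ▸ rfl) hbj
      rw [map_mul]
      exact (mul_le_of_le_one_left' ((V.valuation_le_one_iff _).2 (hφV _))).trans_lt h2
    have h2 : φ (c k j₀ + c j₀ k) = (φ (c k j₀ + c j₀ k) +
        ∑ b ∈ Finset.univ.erase j₀, φ (c k b + c b k) * (φ (x b) * e₀⁻¹)) -
        ∑ b ∈ Finset.univ.erase j₀, φ (c k b + c b k) * (φ (x b) * e₀⁻¹) := by ring
    rw [h2, sub_eq_add_neg]
    refine Valuation.map_add_lt _ hval1 ?_
    rw [Valuation.map_neg]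
    exact h1
  -- the derivative of the equation
  have hxd : ∀ i, Polynomial.derivative (x i) = if i = j₀ then Polynomial.derivative y else 0 := by
    rintro (i | i)
    · rw [if_neg (by rw [hj]; exact Sum.inl_ne_inr)]
      exact Polynomial.derivative_C
    · rw [if_pos hj.symm]
      rfl
  have hderiv : Polynomial.derivative u * G + u * (Polynomial.C (e : A) * Polynomial.X ^ (e - 1)) =
      (∑ a, ∑ b, Polynomial.derivative (c a b) * (x a * x b)) +
        Polynomial.derivative y * ∑ b, (c j₀ b + c b j₀) * x b := by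
    have h2 : Polynomial.derivative G = Polynomial.C (e : A) * Polynomial.X ^ (e - 1) := by
      rw [hG, Polynomial.derivative_sub, Polynomial.derivative_C, sub_zero,
        Polynomial.derivative_X_pow]
    rw [← h2, ← Polynomial.derivative_mul, huG]
    have h3 : ∀ a b, Polynomial.derivative (c a b * x a * x b) =
        Polynomial.derivative (c a b) * (x a * x b) +
        ((if a = j₀ then c a b * (Polynomial.derivative y * x b) else 0) +
        (if b = j₀ then c a b * (Polynomial.derivative y * x a) else 0)) := by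
      intro a b
      rw [Polynomial.derivative_mul, Polynomial.derivative_mul, hxd, hxd]
      split_ifs <;> ring
    simp only [Polynomial.derivative_sum, h3, Finset.sum_add_distrib, Finset.sum_ite_irrel,
      Finset.sum_const_zero, Finset.sum_ite_eq', Finset.mem_univ, if_true]
    rw [← Finset.sum_add_distrib, Finset.mul_sum]
    congr 1
    refine Finset.sum_congr rfl fun b _ => ?_
    ring
  have hsq : ∑ b, al F φ V ((if b = k then u * Polynomial.X ^ (e - 1) else 0) -
      Polynomial.derivative y * (c j₀ b + c b j₀)) * al F φ V (x b) ∈ maximalIdeal P ^ 2 := by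
    have h1 : ∑ b, al F φ V ((if b = k then u * Polynomial.X ^ (e - 1) else 0) -
        Polynomial.derivative y * (c j₀ b + c b j₀)) * al F φ V (x b) =
        al F φ V (∑ a, ∑ b, Polynomial.derivative (c a b) * (x a * x b)) -
          al F φ V (Polynomial.derivative u) * al F φ V G := by
      rw [← map_mul, ← map_sub]
      simp only [← map_mul, ← map_sum]
      congr 1
      have h2 : ∑ b, ((if b = k then u * Polynomial.X ^ (e - 1) else 0) -
          Polynomial.derivative y * (c j₀ b + c b j₀)) * x b =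
          u * Polynomial.X ^ (e - 1) * x k -
            Polynomial.derivative y * ∑ b, (c j₀ b + c b j₀) * x b := by
        simp only [sub_mul, Finset.sum_sub_distrib, ite_mul, zero_mul, Finset.sum_ite_eq',
          Finset.mem_univ, if_true]
        rw [Finset.mul_sum]
        congr 1
        refine Finset.sum_congr rfl fun b _ => ?_
        ring
      rw [h2]
      have h3 : x k = Polynomial.C (e : A) := rfl
      rw [h3]
      linear_combination hderiv
    rw [h1]
    refine Ideal.sub_mem _ (al_mem_pow h𝔔 hφV 2 ?_) (Ideal.mul_mem_left _ _ hf)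
    refine Ideal.sum_mem _ fun a _ => Ideal.sum_mem _ fun b _ => Ideal.mul_mem_left _ _ ?_
    rw [pow_two]
    exact Ideal.mul_mem_mul (hxQ a) (hxQ b)
  have hdk := (al_mem_max h𝔔 hφV).1 (hind.2 _ hsq k)
  rw [if_pos rfl] at hdk
  have h5 : u * Polynomial.X ^ (e - 1) ∈ 𝔔 := by
    have h6 : Polynomial.derivative y * (c j₀ k + c k j₀) ∈ 𝔔 := by
      rw [add_comm (c j₀ k)]
      exact Ideal.mul_mem_left _ _ hckj
    have h7 := Ideal.add_mem _ hdk h6
    rwa [sub_add_cancel] at h7
  rcases hp𝔔.mem_or_mem h5 with h6 | h6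
  · exact hu h6
  · exact hX (hp𝔔.mem_of_pow_mem _ h6)

end crit

end Pool.Agent.Y223.CC
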