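import Pool.Agent.W418.LU2.Final
import Pool.Agent.TH188.QS.Qt

/-!
# The derivative along a blowing-up in one variable

Let `x i`, `x j` be members of a regular system of parameters of the regular local ring `P` and
`t = x i / x j`. The derivation `∂ / ∂ t` acts on the cotangent space of the localization `P'` of
`P[t]` at the centre: if `g(t)` is in the square of the maximal ideal then `g'(t)` is in the maximal
ideal.
-/

set_option autoImplicit false
set_option linter.unusedVariables false
set_option linter.unusedSectionVars false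

universe u v

namespace Pool.Agent.Y223.CC

open IsLocalRing Polynomial Pool.Agent.W418.LU2 Pool.Agent.TH188.QS

variable {F : Type u} [Field F] {A : Subring F} {ι : Type} [Fintype ι] {x : ι → F}
  {S : Subring F}

theorem prime_of_ind {B : Type u} [CommRing B] [IsRegularLocalRing B] {κ : Type} [Fintype κ]
    {z : κ → B} (h : Ind z) : (Ideal.span (Set.range z)).IsPrime := by
  have h4 := h.regular
  have h5 : IsDomain (B ⧸ Ideal.span (Set.range z)) := Pool.Agent.H379R3.isDomain _
  exact (Ideal.Quotient.isDomain_iff_prime _).1 h5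

/-- The kernel of the evaluation. -/
theorem ker_blow (hA : Loc A) (hS : S ≤ A) (h : RegP A (lo A S) x) [DecidableEq ι] {i j : ι}
    (hij : i ≠ j) (hi : (x i)⁻¹ ∉ A) (hj : (x j)⁻¹ ∉ A) {S' : Subring F}
    (ad : Adj A S S' (x i * (x j)⁻¹)) [ad.P.IsPrime] :
    RingHom.ker ad.th = Ideal.span {algebraMap (lo A S)[X] (Localization.AtPrime ad.P)
      (C (⟨x j, h.mem j⟩ : lo A S) * X - C ⟨x i, h.mem i⟩)} := by
  have hreg := h.reg
  have hloc := isLocalRing_lo hA ad.SA
  obtain ⟨hC, h1, h2⟩ := poly_indN ad.P ad.comap_P h.ind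
  set alg := algebraMap (lo A S)[X] (Localization.AtPrime ad.P) with halg
  let xi : lo A S := ⟨x i, h.mem i⟩
  let xj : lo A S := ⟨x j, h.mem j⟩
  have hmi : alg (C xi) ∈ maximalIdeal (Localization.AtPrime ad.P) := by
    rw [halg, alg_mem ad.P ad.comap_P, h.mem_max]
    exact fun h => hi h.2
  have hmj : alg (C xj) ∈ maximalIdeal (Localization.AtPrime ad.P) := by
    rw [halg, alg_mem ad.P ad.comap_P, h.mem_max]
    exact fun h => hj h.2
  have h3 := IndN.blow h1 hij hmi hmj (alg X) fun _ => h2
  have heq : alg (C xj * X - C xi) = alg (C xj) * alg X - alg (C xi) := by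
    rw [map_sub, map_mul]
  have hme : alg (C xj) * alg X - alg (C xi) ∈ maximalIdeal _ :=
    sub_mem_max hmi hmj (alg X)
  have hIe : Ind (fun _ : Unit => alg (C xj) * alg X - alg (C xi)) :=
    h3.ind (fun _ : Unit => Sum.inr ()) (fun _ _ _ => rfl) (fun _ => hme)
  have hprime : (Ideal.span (Set.range fun _ : Unit =>
      alg (C xj) * alg X - alg (C xi))).IsPrime := prime_of_ind hIe
  have hrange : Set.range (fun _ : Unit => alg (C xj) * alg X - alg (C xi)) =
      {alg (C xj) * alg X - alg (C xi)} := Set.range_const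
  have hxj : alg (C xj) ∉ Ideal.span (Set.range fun _ : Unit =>
      alg (C xj) * alg X - alg (C xi)) := by
    intro hmem
    rw [hrange, Ideal.mem_span_singleton'] at hmem
    obtain ⟨e, he⟩ := hmem
    have h4 := h3 (Sum.elim (Pi.single j (-1)) fun _ => e) (by
      rintro (l | l) hl
      · by_cases hlj : l = j
        · subst hlj
          exfalso
          apply hl
          rw [Sum.elim_inl, Function.update_of_ne hij.symm]
          exact hmj
        · exact Pi.single_eq_of_ne hlj _
      · exact absurd hme hl) (by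
      rw [Fintype.sum_sum_type, Fintype.sum_unique (ι := Unit)]
      simp only [Sum.elim_inl, Sum.elim_inr]
      rw [Finset.sum_eq_single j, Pi.single_eq_same, Function.update_of_ne hij.symm, he]
      · have h5 : (-1 : Localization.AtPrime ad.P) * alg (C (⟨x j, h.mem j⟩ : lo A S)) +
            alg (C xj) = 0 := by
          change (-1 : Localization.AtPrime ad.P) * alg (C xj) + alg (C xj) = 0
          ring
        rw [h5]
        exact Ideal.zero_mem _
      · intro l _ hl
        rw [Pi.single_eq_of_ne hl, zero_mul]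
      · intro h; exact absurd (Finset.mem_univ _) h) (Sum.inl j)
    simp only [Sum.elim_inl, Pi.single_eq_same] at h4
    exact (Ideal.ne_top_iff_one _).1 (maximalIdeal.isMaximal _).ne_top
      ((Ideal.neg_mem_iff _).1 h4)
  rw [show (C (⟨x j, h.mem j⟩ : lo A S) * X - C ⟨x i, h.mem i⟩ : (lo A S)[X]) =
    C xj * X - C xi from rfl, heq, ← hrange]
  have hz : ad.th (alg (C xj)) * ad.th (alg X) = ad.th (alg (C xi)) := by
    rw [halg, ad.th_alg, ad.th_alg, ad.th_alg]
    apply Subtype.ext
    change (ad.ev (C xj) : F) * (ad.ev X : F) = (ad.ev (C xi) : F)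
    rw [ad.ev_C, ad.ev_C, ad.ev_X]
    change x j * (x i * (x j)⁻¹) = x i
    rw [mul_left_comm, mul_inv_cancel₀ (h.ne j), mul_one]
  apply le_antisymm
  · intro y hy
    rw [RingHom.mem_ker] at hy
    obtain ⟨g, s, rfl⟩ := IsLocalization.exists_mk'_eq ad.P.primeCompl y
    have h4 : ad.ev g = 0 := by
      have h5 : ad.th (IsLocalization.mk' (Localization.AtPrime ad.P) g s *
          algebraMap _ _ (s : (lo A S)[X])) = 0 := by
        rw [map_mul, hy, zero_mul]
      rw [IsLocalization.mk'_spec, ad.th_alg] at h5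
      exact h5
    have h5 : eval₂ (lo A S).subtype ((lo A S).subtype xi * ((lo A S).subtype xj)⁻¹) g = 0 :=
      congrArg Subtype.val h4
    have h6 := scale_mem (lo A S).subtype Subtype.val_injective xi xj
      (fun h0 => h.ne j (congrArg Subtype.val h0)) g h5
    rw [Ideal.mem_span_singleton'] at h6
    obtain ⟨e, he⟩ := h6
    have h7 : alg (C xj) ^ g.natDegree * alg g ∈ Ideal.span (Set.range fun _ : Unit =>
        alg (C xj) * alg X - alg (C xi)) := by
      have h8 : alg (C xj) ^ g.natDegree * alg g =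
          alg e * (alg (C xj) * alg X - alg (C xi)) := by
        rw [← heq, ← map_mul, he, map_mul, map_pow]
      rw [hrange, h8]
      exact Ideal.mul_mem_left _ _ (Ideal.mem_span_singleton_self _)
    rw [IsLocalization.mk'_eq_mul_mk'_one]
    refine Ideal.mul_mem_right _ _ ?_
    rcases hprime.mem_or_mem h7 with h8 | h8
    · exact absurd (hprime.mem_of_pow_mem _ h8) hxj
    · exact h8
  · rw [Ideal.span_le]
    rintro _ ⟨_, rfl⟩
    change ad.th (alg (C xj) * alg X - alg (C xi)) = 0
    rw [map_sub, map_mul, hz, sub_self]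

/-- The derivative of an element of the square of the maximal ideal. -/
theorem deriv_mem (hA : Loc A) (hS : S ≤ A) (h : RegP A (lo A S) x) [DecidableEq ι] {i j : ι}
    (hij : i ≠ j) (hi : (x i)⁻¹ ∉ A) (hj : (x j)⁻¹ ∉ A) {S' : Subring F}
    (ad : Adj A S S' (x i * (x j)⁻¹)) [IsLocalRing (lo A S')] (g : (lo A S)[X])
    (hg : ad.ev g ∈ maximalIdeal (lo A S') ^ 2) :
    ad.ev (derivative g) ∈ maximalIdeal (lo A S') := by
  have hP := ad.P_prime
  have hker := ker_blow hA hS h hij hi hj ad
  have hdom : IsDomain (lo A S) := inferInstance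
  set alg := algebraMap (lo A S)[X] (Localization.AtPrime ad.P) with halg
  have hinj : Function.Injective alg :=
    IsLocalization.injective (Localization.AtPrime ad.P) (Ideal.primeCompl_le_nonZeroDivisors ad.P)
  set e : (lo A S)[X] := C (⟨x j, h.mem j⟩ : lo A S) * X - C ⟨x i, h.mem i⟩ with he
  have hmemP : ∀ q : (lo A S)[X], q ∈ ad.P ↔ ad.ev q ∈ maximalIdeal (lo A S') := by
    intro q
    rw [← not_iff_not, ad.not_mem_P, mem_maximalIdeal, mem_nonunits_iff, not_not]
  have hmap : maximalIdeal (lo A S') = (maximalIdeal (Localization.AtPrime ad.P)).map ad.th := by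
    apply le_antisymm
    · intro y hy
      obtain ⟨c, rfl⟩ := ad.th_surj y
      refine Ideal.mem_map_of_mem _ ?_
      rw [mem_maximalIdeal, mem_nonunits_iff]
      intro hc
      exact (mem_nonunits_iff.1 ((mem_maximalIdeal _).1 hy)) (hc.map ad.th)
    · rw [Ideal.map_le_iff_le_comap]
      intro c hc
      rw [Ideal.mem_comap]
      obtain ⟨q, s, rfl⟩ := IsLocalization.exists_mk'_eq ad.P.primeCompl c
      have h1 : q ∈ ad.P := (IsLocalization.AtPrime.mk'_mem_maximal_iff _ ad.P q s).1 hc
      have h2 : ad.th (IsLocalization.mk' (Localization.AtPrime ad.P) q s) * ad.ev s = ad.ev q := by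
        rw [← ad.th_alg, ← map_mul, IsLocalization.mk'_spec, ad.th_alg]
      have h3 : IsUnit (ad.ev (s : (lo A S)[X])) := (ad.not_mem_P _).1 s.2
      rw [← Ideal.mul_unit_mem_iff_mem _ h3, h2]
      exact (hmemP q).1 h1
  rw [hmap, ← Ideal.map_pow, Ideal.mem_map_iff_of_surjective _ ad.th_surj] at hg
  obtain ⟨y, hy, hyg⟩ := hg
  have h1 : alg g - y ∈ RingHom.ker ad.th := by
    rw [RingHom.mem_ker, map_sub, hyg, halg, ad.th_alg, sub_self]
  rw [hker, Ideal.mem_span_singleton'] at h1
  obtain ⟨c, hc⟩ := h1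
  rw [← Localization.AtPrime.map_eq_maximalIdeal, ← Ideal.map_pow] at hy
  obtain ⟨⟨⟨a, ha⟩, s⟩, has⟩ := (IsLocalization.mem_map_algebraMap_iff ad.P.primeCompl _).1 hy
  change y * alg (s : (lo A S)[X]) = alg a at has
  obtain ⟨b, s', rfl⟩ := IsLocalization.exists_mk'_eq ad.P.primeCompl c
  have hbs : IsLocalization.mk' (Localization.AtPrime ad.P) b s' * alg (s' : (lo A S)[X]) = alg b :=
    IsLocalization.mk'_spec _ _ _
  have h2 : g * (s * s') = a * s' + b * s * e := by
    apply hinj
    rw [map_mul, map_mul, map_add, map_mul, map_mul, map_mul]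
    have h3 : alg g = y + IsLocalization.mk' (Localization.AtPrime ad.P) b s' * alg e := by
      rw [hc]; ring
    rw [h3, ← has, ← hbs]
    ring
  have hxi : ad.ev (C (⟨x i, h.mem i⟩ : lo A S)) ∈ maximalIdeal (lo A S') := by
    rw [mem_maximalIdeal, mem_nonunits_iff, isUnit_lo_iff ad.SA, ad.ev_C]
    exact fun h => hi h.2
  have hxj : ad.ev (C (⟨x j, h.mem j⟩ : lo A S)) ∈ maximalIdeal (lo A S') := by
    rw [mem_maximalIdeal, mem_nonunits_iff, isUnit_lo_iff ad.SA, ad.ev_C]
    exact fun h => hj h.2
  have heP : e ∈ ad.P := by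
    rw [hmemP, he, map_sub, map_mul]
    exact Ideal.sub_mem _ (Ideal.mul_mem_right _ _ hxj) hxi
  have hde : derivative e ∈ ad.P := by
    have h3 : derivative e = C (⟨x j, h.mem j⟩ : lo A S) := by
      rw [he]
      simp
    rw [h3, hmemP]
    exact hxj
  have hgP : g ∈ ad.P := by
    have h3 : y ∈ maximalIdeal (Localization.AtPrime ad.P) := by
      rw [← Localization.AtPrime.map_eq_maximalIdeal]
      exact (Ideal.map_mono (Ideal.pow_le_self two_ne_zero)) hy
    rw [hmemP, ← hyg, hmap]
    exact Ideal.mem_map_of_mem _ h3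
  have hda : derivative a ∈ ad.P := by
    rw [pow_two] at ha
    refine Submodule.mul_induction_on ha ?_ ?_
    · intro a₁ h₁ a₂ h₂
      rw [derivative_mul]
      exact Ideal.add_mem _ (Ideal.mul_mem_left _ _ h₂) (Ideal.mul_mem_right _ _ h₁)
    · intro a₁ a₂ h₁ h₂
      rw [derivative_add]
      exact Ideal.add_mem _ h₁ h₂
  have haP : a ∈ ad.P := Ideal.pow_le_self two_ne_zero ha
  have key : ∀ σ σ' : (lo A S)[X], σ ∉ ad.P → σ' ∉ ad.P → g * (σ * σ') = a * σ' + b * σ * e →
      derivative g ∈ ad.P := by
    intro σ σ' hσ hσ' h2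
    have h3 : derivative g * (σ * σ') + g * derivative (σ * σ') =
        (derivative a * σ' + a * derivative σ') +
          (derivative (b * σ) * e + b * σ * derivative e) := by
      rw [← derivative_mul, h2, derivative_add, derivative_mul, derivative_mul (f := b * σ)]
    have h4 : derivative g * (σ * σ') ∈ ad.P := by
      have h5 : derivative g * (σ * σ') = derivative a * σ' + a * derivative σ' +
          (derivative (b * σ) * e + b * σ * derivative e) - g * derivative (σ * σ') := by
        rw [eq_sub_iff_add_eq]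
        exact h3
      rw [h5]
      exact Ideal.sub_mem _ (Ideal.add_mem _ (Ideal.add_mem _ (Ideal.mul_mem_right _ _ hda)
        (Ideal.mul_mem_right _ _ haP)) (Ideal.add_mem _ (Ideal.mul_mem_left _ _ heP)
        (Ideal.mul_mem_left _ _ hde))) (Ideal.mul_mem_right _ _ hgP)
    rcases hP.mem_or_mem h4 with h5 | h5
    · exact h5
    · rcases hP.mem_or_mem h5 with h6 | h6
      · exact absurd h6 hσ
      · exact absurd h6 hσ'
  rw [← hmemP]
  exact key s s' s.2 s'.2 h2

end Pool.Agent.Y223.CC
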