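import Pool.Agent.Y223.CC.Main
import Pool.Agent.H918R2.Quad.Final

/-!
# Regular proper models of cyclic coverings
-/

set_option autoImplicit false

open AlgebraicGeometry CategoryTheory Polynomial

namespace Pool.Agent.Y223.CC

open Pool.Agent.H918R2.Quad

theorem cyc_final {O E : Type} [CommRing O] [IsDomain O] [Module.Finite ℤ O] [Field E]
    [Algebra O E] (hO : Function.Injective (algebraMap O E)) {ι : Type} [Finite ι] [Nonempty ι]
    (H : ι → E) (hH : ∀ j, H j ≠ 0)
    (hreg : ∀ j, IsRegularRing (Algebra.adjoin O (Set.range fun l => H l / H j)))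
    (j₀ : ι) (hfrac : Subfield.closure
      ((Algebra.adjoin O (Set.range fun l => H l / H j₀) : Subalgebra O E) : Set E) = ⊤)
    {e m : ℕ} (he : 2 ≤ e) (hm : 1 ≤ m) (F : E)
    (f : ∀ j, (Algebra.adjoin O (Set.range fun l => H l / H j) : Subalgebra O E))
    (hf : ∀ j, (f j : E) = F / H j ^ (e * m)) (hcov : ∀ j, CovCond e (f j))
    (hirr : Irreducible (X ^ e - C F : E[X]))
    {Y : Type} [Field Y] (i : Y ≃+* AdjoinRoot (X ^ e - C F : E[X])) :
    ∃ (X' : Scheme.{0}) (_ : IsIntegral X') (g : X' ⟶ Spec (CommRingCat.of ℤ)),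
      IsProper g ∧
      (∀ x : X',
        (((Module.finrank (IsLocalRing.ResidueField (X'.presheaf.stalk x))
            (IsLocalRing.CotangentSpace (X'.presheaf.stalk x)) : ℕ∞)) : WithBot ℕ∞)
          = ringKrullDim (X'.presheaf.stalk x)) ∧
      Nonempty (X'.functionField ≃+* Y) := by
  have : Fact (Irreducible (X ^ e - C F : E[X])) := ⟨hirr⟩
  have : IsNoetherianRing O := isNoetherian_of_isNoetherianRing_of_finite ℤ O |> fun h =>
    isNoetherianRing_iff.2 (isNoetherian_of_tower ℤ h)
  have hst : IsScalarTower O E (AdjoinRoot (X ^ e - C F : E[X])) := inferInstance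
  have hinj : Function.Injective (algebraMap O (AdjoinRoot (X ^ e - C F : E[X]))) := by
    rw [IsScalarTower.algebraMap_eq O E (AdjoinRoot (X ^ e - C F : E[X]))]
    exact (algebraMap E (AdjoinRoot (X ^ e - C F : E[X]))).injective.comp hO
  have hM : HasModule O (AdjoinRoot (X ^ e - C F : E[X])) := by
    refine cyc_hasModule (E := E) hinj H hH hreg j₀ ?_ he hm F f hf hcov hirr
      (AdjoinRoot.root (X ^ e - C F)) ?_ ?_
    · intro y
      have hy : y ∈ Subfield.closure
          ((Algebra.adjoin O (Set.range fun l => H l / H j₀) : Subalgebra O E) : Set E) := by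
        rw [hfrac]; trivial
      obtain ⟨b, hb, c, hc, hbc⟩ := Subfield.mem_closure_iff.1 hy
      have hcl : ∀ x ∈ Subring.closure
          ((Algebra.adjoin O (Set.range fun l => H l / H j₀) : Subalgebra O E) : Set E),
          x ∈ AJ O H j₀ := by
        intro x hx
        have h1 : Subring.closure
          ((Algebra.adjoin O (Set.range fun l => H l / H j₀) : Subalgebra O E) : Set E) ≤
            (AJ O H j₀).toSubring := Subring.closure_le.2 fun x hx => hx
        exact h1 hx
      exact ⟨b, hcl b hb, c, hcl c hc, hbc.symm⟩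
    · have h1 := AdjoinRoot.eval₂_root (X ^ e - C F : E[X])
      rw [eval₂_sub, eval₂_pow, eval₂_X, eval₂_C, sub_eq_zero] at h1
      exact h1
    · exact AdjoinRoot.adjoinRoot_eq_top
  obtain ⟨X', hX', g, hg, hreg', ⟨i'⟩⟩ := model_of_hasModule hinj hM
  exact ⟨X', hX', g, hg, hreg', ⟨i'.trans i.symm⟩⟩

end Pool.Agent.Y223.CC
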