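import Pool.Agent.Y223.CC.Main2
import Pool.Agent.TH214.RM.Fin
import Pool.Agent.TH214.RM.Cyc

/-!
# Cyclic coverings of projective spaces
-/

set_option autoImplicit false
set_option linter.unusedVariables false
set_option linter.unusedSectionVars false

namespace Pool.Agent.Y223.CC

open MvPolynomial Pool.Agent.TH214.RM Pool.Agent.H918R2.Quad Pool.Agent.W418

section

variable {O K F : Type} [CommRing O] [IsDomain O] [Field K] [Algebra O K] [IsFractionRing O K]
  [Field F] [Algebra K F] [Algebra O F] [IsScalarTower O K F] {r : ℕ}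

lemma finSucc_rename (P : MvPolynomial (Fin (r + 1)) K) :
    finSuccEquiv K (r + 1) (rename Fin.succ P) = Polynomial.C P := by
  induction P using MvPolynomial.induction_on with
  | C a =>
    rw [rename_C]
    simp [finSuccEquiv_apply]
  | add p q hp hq => rw [map_add, map_add, hp, hq, map_add]
  | mul_X p i hp => rw [map_mul, map_mul, hp, rename_X, finSuccEquiv_X_succ, map_mul]

lemma key_zero (x : Fin (r + 2) → F) (d : ℕ) (hd : 1 ≤ d) (Φ : MvPolynomial (Fin (r + 1)) O)
    (hdvd : ∀ N (P : MvPolynomial (Fin (r + 2)) K), P.IsHomogeneous N → aeval x P = 0 →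
      map (algebraMap O K) (cyc d Φ) ∣ P)
    (j : Fin (r + 1)) (hxj : x j.succ ≠ 0) (p : ℕ → MvPolynomial {l : Fin (r + 1) // l ≠ j} O)
    (hp : ∑ i ∈ Finset.range d, aeval (fun l : {l // l ≠ j} => x l.1.succ * (x j.succ)⁻¹) (p i) *
      (x 0 * (x j.succ)⁻¹) ^ i = 0) : ∀ i ∈ Finset.range d, p i = 0 := by
  classical
  have hOK : Function.Injective (algebraMap O K) := IsFractionRing.injective O K
  choose N P hP hdeh using fun i => exists_homog j (p i)
  set T : ℕ := (∑ i ∈ Finset.range d, N i) + d with hT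
  have hNT : ∀ i ∈ Finset.range d, N i + i ≤ T := by
    intro i hi
    have h1 : N i ≤ ∑ i ∈ Finset.range d, N i := Finset.single_le_sum (fun _ _ => Nat.zero_le _) hi
    have h2 := Finset.mem_range.1 hi
    omega
  let Q : ℕ → MvPolynomial (Fin (r + 1)) O := fun i => P i * X j ^ (T - N i - i)
  let PK : MvPolynomial (Fin (r + 2)) K :=
    ∑ i ∈ Finset.range d, rename Fin.succ (map (algebraMap O K) (Q i)) * X 0 ^ i
  have hPK : PK.IsHomogeneous T := by
    refine IsHomogeneous.sum _ _ _ fun i hi => ?_
    have h1 : (Q i).IsHomogeneous (N i + (T - N i - i)) := by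
      have h2 := (hP i).mul ((isHomogeneous_X O j).pow (T - N i - i))
      rwa [one_mul] at h2
    have h2 := ((h1.map (algebraMap O K)).rename_isHomogeneous (f := Fin.succ)).mul
      ((isHomogeneous_X K (0 : Fin (r + 2))).pow i)
    have h3 : N i + (T - N i - i) + 1 * i = T := by
      have := hNT i hi
      omega
    rwa [h3] at h2
  have hval : aeval x PK = 0 := by
    have h1 : aeval x PK = x j.succ ^ T * ∑ i ∈ Finset.range d,
        aeval (fun l : {l // l ≠ j} => x l.1.succ * (x j.succ)⁻¹) (p i) *
          (x 0 * (x j.succ)⁻¹) ^ i := by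
      rw [Finset.mul_sum, map_sum]
      refine Finset.sum_congr rfl fun i hi => ?_
      rw [map_mul, map_pow, aeval_X, aeval_rename, aeval_map_algebraMap, map_mul, map_pow, aeval_X]
      have h2 := aeval_chart (fun l : Fin (r + 1) => x l.succ) j (x j.succ)⁻¹
        (mul_inv_cancel₀ hxj) (P i) (N i) (hP i)
      rw [hdeh] at h2
      rw [h2]
      have h3 : aeval (x ∘ Fin.succ) (P i) = aeval (fun l : Fin (r + 1) => x l.succ) (P i) := rfl
      rw [h3]
      have h4 : T = N i + ((T - N i - i) + i) := by
        have := hNT i hi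
        omega
      have h5 : x j.succ ^ T = x j.succ ^ (N i) * (x j.succ ^ (T - N i - i) * x j.succ ^ i) := by
        rw [← pow_add, ← pow_add, ← h4]
      rw [h5, mul_pow, inv_pow, inv_pow, Function.comp_apply]
      have h6 := pow_ne_zero (N i) hxj
      have h7 := pow_ne_zero i hxj
      field_simp
    rw [h1, hp, mul_zero]
  have hd1 := hdvd T PK hPK hval
  have hd2 : finSuccEquiv K (r + 1) (map (algebraMap O K) (cyc d Φ)) ∣
      finSuccEquiv K (r + 1) PK := map_dvd _ hd1
  have h1 : finSuccEquiv K (r + 1) (map (algebraMap O K) (cyc d Φ)) =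
      Polynomial.X ^ d + Polynomial.C (map (algebraMap O K) Φ) := by
    rw [map_cyc]
    unfold cyc
    rw [map_add, map_pow, finSuccEquiv_X_zero, finSucc_rename]
  have h2 : finSuccEquiv K (r + 1) PK = ∑ i ∈ Finset.range d,
      Polynomial.C (map (algebraMap O K) (Q i)) * Polynomial.X ^ i := by
    rw [map_sum]
    refine Finset.sum_congr rfl fun i _ => ?_
    rw [map_mul, map_pow, finSuccEquiv_X_zero, finSucc_rename]
  have hmonic : (Polynomial.X ^ d + Polynomial.C (map (algebraMap O K) Φ) :
      Polynomial (MvPolynomial (Fin (r + 1)) K)).Monic :=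
    Polynomial.monic_X_pow_add_C _ (by omega)
  have hdeg : (Polynomial.X ^ d + Polynomial.C (map (algebraMap O K) Φ) :
      Polynomial (MvPolynomial (Fin (r + 1)) K)).degree = d :=
    Polynomial.degree_X_pow_add_C (by omega) _
  rw [h1, h2] at hd2
  have h3 : (∑ i ∈ Finset.range d,
      Polynomial.C (map (algebraMap O K) (Q i)) * Polynomial.X ^ i) = 0 := by
    by_contra h0
    refine hmonic.not_dvd_of_degree_lt h0 ?_ hd2
    rw [hdeg, Polynomial.degree_lt_iff_coeff_zero]
    intro i hi
    simp only [Polynomial.finsetSum_coeff, Polynomial.coeff_C_mul, Polynomial.coeff_X_pow,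
      mul_ite, mul_one, mul_zero, Finset.sum_ite_eq]
    rw [if_neg (by rw [Finset.mem_range]; omega)]
  intro i hi
  have h4 := congrArg (fun q => Polynomial.coeff q i) h3
  simp only [Polynomial.finsetSum_coeff, Polynomial.coeff_C_mul, Polynomial.coeff_X_pow,
    mul_ite, mul_one, mul_zero, Finset.sum_ite_eq, hi, if_true, Polynomial.coeff_zero] at h4
  have h5 : Q i = 0 := by
    apply map_injective _ hOK
    rw [h4, map_zero]
  have h6 : P i = 0 := (mul_eq_zero.1 h5).resolve_right (pow_ne_zero _ (X_ne_zero j))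
  rw [← hdeh i, h6]
  exact map_zero _

/-- Cyclic coverings of projective spaces have good modules. -/
theorem cyc_good [IsRegularRing O] (x : Fin (r + 2) → F) (hx0 : x 0 = 1) (d : ℕ) (hd : 2 ≤ d)
    (Φ : MvPolynomial (Fin (r + 1)) O) (hΦ : Φ.IsHomogeneous d) (hrel : aeval x (cyc d Φ) = 0)
    (hdvd : ∀ N (P : MvPolynomial (Fin (r + 2)) K), P.IsHomogeneous N → aeval x P = 0 →
      map (algebraMap O K) (cyc d Φ) ∣ P)
    (hcov : ∀ j, CovCond d (- deh j Φ)) : GoodModule O x := by
  classical
  have hOK : Function.Injective (algebraMap O K) := IsFractionRing.injective O K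
  have hnoeth : IsNoetherianRing O := inferInstance
  have hcycd : (map (algebraMap O K) (cyc d Φ)).IsHomogeneous d :=
    (isHomogeneous_cyc d Φ hΦ).map _
  have hcyc0 : map (algebraMap O K) (cyc d Φ) ≠ 0 := by
    intro h
    have h1 := congrArg (finSuccEquiv K (r + 1)) h
    rw [map_cyc, map_zero] at h1
    unfold cyc at h1
    rw [map_add, map_pow, finSuccEquiv_X_zero, finSucc_rename] at h1
    exact (Polynomial.monic_X_pow_add_C (map (algebraMap O K) Φ) (by omega)).ne_zero h1
  have hx : ∀ j : Fin (r + 1), x j.succ ≠ 0 := by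
    intro j h
    have h1 := hdvd 1 (X j.succ) (isHomogeneous_X K j.succ) (by rw [aeval_X]; exact h)
    have h2 := totalDegree_le_of_dvd_of_isDomain h1 (X_ne_zero _)
    rw [totalDegree_X, hcycd.totalDegree hcyc0] at h2
    omega
  let H : Fin (r + 1) → F := fun j => x j.succ
  let α : ∀ j : Fin (r + 1), MvPolynomial {l : Fin (r + 1) // l ≠ j} O →ₐ[O] F := fun j =>
    aeval (fun l : {l // l ≠ j} => x l.1.succ * (x j.succ)⁻¹)
  have hα : ∀ j, Function.Injective (α j) := by
    intro j
    rw [injective_iff_map_eq_zero]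
    intro a ha
    have h1 := key_zero x d (by omega) Φ hdvd j (hx j) (fun i => if i = 0 then a else 0) (by
      refine Finset.sum_eq_zero fun i _ => ?_
      by_cases hi : i = 0
      · rw [if_pos hi]
        change α j a * _ = 0
        rw [ha, zero_mul]
      · rw [if_neg hi, map_zero, zero_mul]) 0 (Finset.mem_range.2 (by omega))
    rwa [if_pos rfl] at h1
  have hrange : ∀ j, (α j).range = AJ O H j := by
    intro j
    apply le_antisymm
    · rintro _ ⟨a, rfl⟩
      change α j a ∈ AJ O H j
      induction a using MvPolynomial.induction_on with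
      | C a =>
        change aeval _ (C a) ∈ _
        rw [aeval_C]
        exact Subalgebra.algebraMap_mem _ a
      | add p q hp hq => rw [map_add]; exact Subalgebra.add_mem _ hp hq
      | mul_X p l hp =>
        rw [map_mul]
        refine Subalgebra.mul_mem _ hp ?_
        change aeval _ (X l) ∈ _
        rw [aeval_X]
        exact Algebra.subset_adjoin ⟨l.1, div_eq_mul_inv _ _⟩
    · refine Algebra.adjoin_le ?_
      rintro _ ⟨l, rfl⟩
      by_cases hl : l = j
      · rw [hl]
        change x j.succ / x j.succ ∈ _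
        rw [div_self (hx j)]
        exact Subalgebra.one_mem _
      · refine ⟨X ⟨l, hl⟩, ?_⟩
        change aeval _ (X _) = _
        rw [aeval_X]
        exact (div_eq_mul_inv _ _).symm
  let ε : ∀ j, MvPolynomial {l : Fin (r + 1) // l ≠ j} O ≃+* AJ O H j := fun j =>
    ((AlgEquiv.ofInjective (α j) (hα j)).trans (Subalgebra.equivOfEq _ _ (hrange j))).toRingEquiv
  have hε : ∀ j a, ((ε j a : AJ O H j) : F) = α j a := fun j a => rfl
  have hz : (1 : F) ^ d = algebraMap F F 1 := by rw [one_pow, map_one]
  have hf : ∀ j, ((ε j (- deh j Φ) : AJ O H j) : F) = 1 / H j ^ (d * 1) := by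
    intro j
    rw [hε, map_neg]
    change - aeval (fun l : {l // l ≠ j} => x l.1.succ * (x j.succ)⁻¹) (deh j Φ) = _
    rw [aeval_chart (fun l : Fin (r + 1) => x l.succ) j (x j.succ)⁻¹
      (mul_inv_cancel₀ (hx j)) Φ d hΦ]
    have h1 : aeval (fun l : Fin (r + 1) => x l.succ) Φ = -1 := by
      unfold cyc at hrel
      rw [map_add, map_pow, aeval_X, aeval_rename, hx0, one_pow] at hrel
      have h2 : aeval (x ∘ Fin.succ) Φ = aeval (fun l : Fin (r + 1) => x l.succ) Φ := rfl
      rw [h2] at hrel
      linear_combination hrel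
    rw [h1, mul_one]
    change - (-1 * (x j.succ)⁻¹ ^ d) = 1 / x j.succ ^ d
    rw [inv_pow, one_div, neg_mul, one_mul, neg_neg]
  have hker : ∀ j, ∀ s : Polynomial (MvPolynomial {l : Fin (r + 1) // l ≠ j} O),
      ph' H 1 (1 : F) (ε j) s = 0 →
      s ∈ Ideal.span {Polynomial.X ^ d - Polynomial.C (- deh j Φ)} := by
    intro j s hs
    set G : Polynomial (MvPolynomial {l : Fin (r + 1) // l ≠ j} O) :=
      Polynomial.X ^ d - Polynomial.C (- deh j Φ) with hG
    have hmonic : G.Monic := Polynomial.monic_X_pow_sub_C _ (by omega)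
    set w := s %ₘ G with hw
    have hdeg : w.natDegree < d := by
      have h1 := Polynomial.natDegree_modByMonic_lt s hmonic (by
        intro h3
        have h4 := congrArg Polynomial.natDegree h3
        rw [hG, Polynomial.natDegree_X_pow_sub_C, Polynomial.natDegree_one] at h4
        omega)
      rwa [hG, Polynomial.natDegree_X_pow_sub_C] at h1
    have hw0 : ph' H 1 (1 : F) (ε j) w = 0 := by
      have h1 := congrArg (ph' H 1 (1 : F) (ε j)) (Polynomial.modByMonic_add_div s G)
      have h2 : ph' H 1 (1 : F) (ε j) G = 0 := by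
        rw [hG, map_sub, map_pow, ph'_C, ph'_X, hf, div_pow, one_pow, ← pow_mul, map_div₀, map_one,
          map_pow, mul_comm 1 d, sub_self]
      rw [map_add, map_mul, h2, zero_mul, add_zero, hs] at h1
      exact h1
    have hw1 : ∑ i ∈ Finset.range d, aeval (fun l : {l // l ≠ j} => x l.1.succ * (x j.succ)⁻¹)
        (w.coeff i) * (x 0 * (x j.succ)⁻¹) ^ i = 0 := by
      rw [← hw0]
      have h5 := Polynomial.as_sum_range_C_mul_X_pow' w hdeg
      conv_rhs => rw [h5]
      rw [map_sum]
      refine Finset.sum_congr rfl fun i _ => ?_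
      rw [map_mul, map_pow, ph'_C, ph'_X, hε, hx0, pow_one, one_mul, one_div]
      rfl
    have hw2 := key_zero x d (by omega) Φ hdvd j (hx j) (fun i => w.coeff i) hw1
    have hw3 : w = 0 := by
      rw [Polynomial.as_sum_range_C_mul_X_pow' w hdeg]
      refine Finset.sum_eq_zero fun i hi => ?_
      rw [hw2 i hi, map_zero, zero_mul]
    rw [Ideal.mem_span_singleton]
    exact (Polynomial.modByMonic_eq_zero_iff_dvd hmonic).1 hw3
  obtain ⟨D, M', hD, hfg, hle, hsm, hne, hLR⟩ := cyc_module' H hx hd le_rfl 1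
    (fun j => ε j (- deh j Φ)) hf (1 : F) hz (fun j => MvPolynomial {l : Fin (r + 1) // l ≠ j} O) ε
    (fun j => - deh j Φ) (fun j => rfl) hcov hker
  have hMM : MM O H 1 (1 : F) = Submodule.span O (Set.range x) := by
    unfold MM M0
    rw [pow_one, ← Submodule.span_union]
    congr 1
    ext y
    constructor
    · rintro (⟨l, rfl⟩ | hy)
      · exact ⟨l.succ, rfl⟩
      · rw [Set.mem_singleton_iff] at hy
        exact ⟨0, by rw [hy, hx0]⟩
    · rintro ⟨l, rfl⟩
      refine Fin.cases ?_ (fun i => ?_) l
      · right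
        rw [hx0]
        rfl
      · left
        exact ⟨i, rfl⟩
  rw [hMM, Submodule.span_pow] at hle hsm
  refine ⟨D, M', hD, hfg, hne, hle, hsm, ?_⟩
  intro g hg hg0 q _
  exact chart_regular hLR g hg hg0 q

end

end Pool.Agent.Y223.CC
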