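import Pool.Agent.Y223.CC.Hyp

/-!
# Regular models of cyclic coverings of projective spaces over rings of integers
-/

set_option autoImplicit false
set_option linter.unusedVariables false
set_option linter.unusedSectionVars false

open AlgebraicGeometry CategoryTheory CategoryTheory.Limits MvPolynomial NumberField

namespace Pool.Agent.Y223.CC

open Pool.Agent.TH214.RM Pool.Agent.H918R2.Quad Pool.Agent.W418

lemma covCond_neg {R σ : Type} [CommRing R] (d : ℕ) (f : MvPolynomial σ R)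
    (h1 : ∀ 𝔮 : Ideal (MvPolynomial σ R), 𝔮.IsPrime → f ∈ 𝔮 → ∀ h, h ∉ 𝔮 → h * f ∉ 𝔮 ^ 2)
    (h2 : ∀ 𝔮 : Ideal (MvPolynomial σ R), 𝔮.IsPrime → (d : MvPolynomial σ R) ∈ 𝔮 → f ∉ 𝔮 →
      (∀ j, pderiv j f ∈ 𝔮) → Finite (MvPolynomial σ R ⧸ 𝔮) ∧
      ((∀ p : ℕ, p.Prime → (p : MvPolynomial σ R) ∈ 𝔮 → ∀ g, f + g ^ p ∉ 𝔮 ^ 2) ∨
       ((d : MvPolynomial σ R) ∉ 𝔮 ^ 2 ∧
        𝔮 ≤ Ideal.span ({(d : MvPolynomial σ R)} ∪ Set.range fun j => pderiv j f) ⊔ 𝔮 ^ 2))) :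
    CovCond d (-f) := by
  refine ⟨?_, ?_⟩
  · intro 𝔮 h𝔮 hf h hh
    rw [neg_mem_iff] at hf
    rw [mul_neg, neg_mem_iff]
    exact h1 𝔮 h𝔮 hf h hh
  · intro 𝔮 h𝔮 hd hf hD
    rw [neg_mem_iff] at hf
    have hpd : ∀ j, pderiv j f ∈ 𝔮 := by
      intro j
      have h3 := hD ((pderiv j : Derivation R (MvPolynomial σ R) (MvPolynomial σ R)).restrictScalars ℤ)
      change pderiv j (-f) ∈ 𝔮 at h3
      rw [map_neg, neg_mem_iff] at h3
      exact h3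
    obtain ⟨hfin, hc⟩ := h2 𝔮 h𝔮 hd hf hpd
    refine ⟨hfin, ?_⟩
    rcases hc with hc | ⟨hc1, hc2⟩
    · left
      intro p hp hpq g hg
      apply hc p hp hpq g
      have h3 : f + g ^ p = - (-f - g ^ p) := by ring
      rw [h3, neg_mem_iff]
      exact hg
    · right
      refine ⟨hc1, hc2.trans (sup_le_sup_right ?_ _)⟩
      rw [Ideal.span_le]
      rintro b (hb | ⟨j, rfl⟩)
      · exact Ideal.subset_span (Or.inl hb)
      · have h3 : - pderiv j f ∈ Ideal.span ({(d : MvPolynomial σ R)} ∪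
            {b | ∃ D : Derivation ℤ (MvPolynomial σ R) (MvPolynomial σ R), b = D (-f)}) := by
          refine Ideal.subset_span (Or.inr
            ⟨(pderiv j : Derivation R (MvPolynomial σ R) (MvPolynomial σ R)).restrictScalars ℤ, ?_⟩)
          change _ = pderiv j (-f)
          rw [map_neg]
        exact neg_mem_iff.1 h3

section

variable {K : Type} [Field K] [NumberField K]

theorem cyc_goodModule {r : ℕ} (d : ℕ) (hd : 2 ≤ d) (Φ : MvPolynomial (Fin (r + 1)) (𝓞 K))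
    (hΦ : Φ.IsHomogeneous d)
    (hirr : Irreducible (map (algebraMap (𝓞 K) K) (cyc d Φ)))
    (hcov : ∀ j, CovCond d (- deh j Φ)) {F : Type} [Field F] [Algebra K F] [Algebra (𝓞 K) F]
    [IsScalarTower (𝓞 K) K F] (x : Fin (r + 2) → F) (hx0 : x 0 = 1)
    (hrel : aeval x (map (algebraMap (𝓞 K) K) (cyc d Φ)) = 0)
    (hgen : IntermediateField.adjoin K (Set.range x) = ⊤) (b : Fin r → F)
    (htb : IsTranscendenceBasis K b) : GoodModule (𝓞 K) x := by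
  refine cyc_good (K := K) x hx0 d hd Φ hΦ ?_ ?_ hcov
  · rw [← hrel, aeval_map_algebraMap]
  · intro N P hP hP0
    exact hyp_dvd x hx0 hgen b htb _ hirr.prime d ((isHomogeneous_cyc d Φ hΦ).map _) hrel N P hP hP0

theorem cyc_model_Z {r : ℕ} (hr : 1 ≤ r) (d : ℕ) (hd : 2 ≤ d)
    (Φ : MvPolynomial (Fin (r + 1)) (𝓞 K)) (hΦ : Φ.IsHomogeneous d)
    (hsm : Smooth (map (algebraMap (𝓞 K) K) Φ))
    (hcov : ∀ j, CovCond d (- deh j Φ)) {A : Type} [CommRing A] [Algebra K A]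
    (π : MvPolynomial (Fin (r + 2)) K →ₐ[K] A) (hπ : Function.Surjective π)
    (hker : RingHom.ker π = Ideal.span {cyc d (map (algebraMap (𝓞 K) K) Φ)})
    (𝒜 : ℕ → Submodule K A) [GradedAlgebra 𝒜]
    (h𝒜 : ∀ d, 𝒜 d = (homogeneousSubmodule (Fin (r + 2)) K d).map π.toLinearMap)
    (Y : Scheme.{0}) (hY : Nonempty (Y ≅ Proj 𝒜)) : HasRegularModel Y := by
  rw [← map_cyc] at hker
  have hGd : (map (algebraMap (𝓞 K) K) (cyc d Φ)).IsHomogeneous d :=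
    (isHomogeneous_cyc d Φ hΦ).map _
  have hsm' : Smooth (map (algebraMap (𝓞 K) K) (cyc d Φ)) := by
    rw [map_cyc]
    exact smooth_cyc d hd _ hsm
  have hirr := irreducible_of_smooth hr _ d (by omega) hGd hsm'
  obtain ⟨F, _, _, x, b, hx0, hrel, hgen, htb⟩ := exists_ff _ hirr d hGd
    (not_dvd_X _ hirr.ne_zero d hd hGd)
  let _ : Algebra (𝓞 K) F := ((algebraMap K F).comp (algebraMap (𝓞 K) K)).toAlgebra
  have hst : IsScalarTower (𝓞 K) K F := IsScalarTower.of_algebraMap_eq fun _ => rfl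
  have hM := cyc_goodModule d hd Φ hΦ hirr hcov x hx0 hrel hgen b htb
  obtain ⟨ε, hε, hεgen, hε1⟩ := exists_eps x hx0 hgen _ htb _ hirr.prime d hGd hrel π hπ hker 𝒜 h𝒜
  exact hasRegularModel_of_goodModule (O := 𝓞 K) 𝒜 ε hε hεgen x hε1 hM Y hY

theorem cyc_model_O {r : ℕ} (hr : 1 ≤ r) (d : ℕ) (hd : 2 ≤ d)
    (Φ : MvPolynomial (Fin (r + 1)) (𝓞 K)) (hΦ : Φ.IsHomogeneous d)
    (hsm : Smooth (map (algebraMap (𝓞 K) K) Φ))
    (hcov : ∀ j, CovCond d (- deh j Φ)) {A : Type} [CommRing A] [Algebra K A]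
    (π : MvPolynomial (Fin (r + 2)) K →ₐ[K] A) (hπ : Function.Surjective π)
    (hker : RingHom.ker π = Ideal.span {cyc d (map (algebraMap (𝓞 K) K) Φ)})
    (𝒜 : ℕ → Submodule K A) [GradedAlgebra 𝒜]
    (h𝒜 : ∀ d, 𝒜 d = (homogeneousSubmodule (Fin (r + 2)) K d).map π.toLinearMap)
    {Y : Scheme.{0}} (f : Y ⟶ Spec (CommRingCat.of K)) (i : Y ≅ Proj 𝒜)
    (hi : i.hom ≫ GO.projStr 𝒜 = f) : GO.HasModel (𝓞 K) K f := by
  rw [← map_cyc] at hker
  have hGd : (map (algebraMap (𝓞 K) K) (cyc d Φ)).IsHomogeneous d :=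
    (isHomogeneous_cyc d Φ hΦ).map _
  have hsm' : Smooth (map (algebraMap (𝓞 K) K) (cyc d Φ)) := by
    rw [map_cyc]
    exact smooth_cyc d hd _ hsm
  have hirr := irreducible_of_smooth hr _ d (by omega) hGd hsm'
  obtain ⟨F, _, _, x, b, hx0, hrel, hgen, htb⟩ := exists_ff _ hirr d hGd
    (not_dvd_X _ hirr.ne_zero d hd hGd)
  let _ : Algebra (𝓞 K) F := ((algebraMap K F).comp (algebraMap (𝓞 K) K)).toAlgebra
  have hst : IsScalarTower (𝓞 K) K F := IsScalarTower.of_algebraMap_eq fun _ => rfl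
  have hM := cyc_goodModule d hd Φ hΦ hirr hcov x hx0 hrel hgen b htb
  obtain ⟨ε, hε, hεgen, hε1⟩ := exists_eps x hx0 hgen _ htb _ hirr.prime d hGd hrel π hπ hker 𝒜 h𝒜
  exact hasModel_of_goodModule (O := 𝓞 K) 𝒜 ε hε hεgen x hε1 hM f i hi

end

end Pool.Agent.Y223.CC
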