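import Pool.Agent.Y223.CC.State
import Mathlib.RingTheory.Derivation.MapCoeffs

/-!
# The ambient local ring as a localization
-/

set_option autoImplicit false
set_option linter.unusedVariables false
set_option linter.unusedSectionVars false

universe u v

namespace Pool.Agent.Y223.CC

open IsLocalRing Pool.Agent.W418.LU2 Pool.Agent.TH188.QS

section

variable {S F K : Type u} [CommRing S] [IsDomain S] [Field F] [Algebra S F] [IsFractionRing S F]
  [Field K] {φ : S →+* K} {V : ValuationSubring K}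

lemma range_le (hφV : ∀ s, φ s ∈ V) : (algebraMap S F).range ≤ AA F φ V := by
  rintro _ ⟨s, rfl⟩
  exact ⟨φ s, hφV s, Pr.alg s⟩

lemma isLocalRing_P (hφV : ∀ s, φ s ∈ V) :
    IsLocalRing (lo (AA F φ V) (algebraMap S F).range) := isLocalRing_lo loc_AA (range_le hφV)

/-- The map to the ambient local ring. -/
noncomputable def al (F : Type u) [Field F] [Algebra S F] [IsFractionRing S F]
    (φ : S →+* K) (V : ValuationSubring K) : S →+* lo (AA F φ V) (algebraMap S F).range :=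
  (algebraMap S F).codRestrict _ fun s => le_lo _ _ ⟨s, rfl⟩

lemma al_coe (s : S) : (al F φ V s : F) = algebraMap S F s := rfl

lemma isUnit_al (hφV : ∀ s, φ s ∈ V) (s : S) :
    IsUnit (al F φ V s) ↔ ¬ V.valuation (φ s) < 1 := by
  rw [isUnit_lo_iff (range_le hφV), al_coe, Pr.inv_AA (Pr.alg s)]
  constructor
  · rintro ⟨h0, h1⟩ h
    exact (not_le.2 h) ((V.valuation_le_one_iff _).2 h1 |> fun h2 => by
      rw [map_inv₀] at h2
      exact (inv_le_one₀ ((Valuation.pos_iff _).2 h0)).1 h2)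
  · intro h
    have h0 : φ s ≠ 0 := by
      intro h0
      rw [h0, map_zero] at h
      exact h zero_lt_one
    refine ⟨h0, ?_⟩
    rw [← V.valuation_le_one_iff, map_inv₀]
    exact (inv_le_one₀ ((Valuation.pos_iff _).2 h0)).2 (not_lt.1 h)

variable {𝔔 : Ideal S} (h𝔔 : ∀ s, s ∈ 𝔔 ↔ V.valuation (φ s) < 1)

include h𝔔

lemma prime_𝔔 : 𝔔.IsPrime := by
  refine ⟨?_, ?_⟩
  · rw [Ne, Ideal.eq_top_iff_one, h𝔔, map_one, map_one]
    exact lt_irrefl _
  · intro a b hab
    rw [h𝔔, map_mul, map_mul] at hab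
    rw [h𝔔, h𝔔]
    by_contra hcon
    rw [not_or, not_lt, not_lt] at hcon
    exact absurd hab (not_lt.2 (one_le_mul hcon.1 hcon.2))

theorem isLoc_P (hφV : ∀ s, φ s ∈ V) [𝔔.IsPrime] :
    letI := (al F φ V).toAlgebra
    IsLocalization.AtPrime (lo (AA F φ V) (algebraMap S F).range) 𝔔 := by
  letI := (al F φ V).toAlgebra
  exact
    { map_units := by
        rintro ⟨y, hy⟩
        change IsUnit (al F φ V y)
        rw [isUnit_al hφV, ← h𝔔]
        exact hy
      surj := by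
        rintro ⟨z, a, ha, b, hb, hb0, hbW, rfl⟩
        obtain ⟨a', rfl⟩ := ha
        obtain ⟨b', rfl⟩ := hb
        refine ⟨(a', ⟨b', ?_⟩), ?_⟩
        · change b' ∉ 𝔔
          rw [h𝔔, ← isUnit_al (F := F) hφV, isUnit_lo_iff (range_le hφV)]
          exact ⟨hb0, hbW⟩
        · apply Subtype.ext
          change algebraMap S F a' * (algebraMap S F b')⁻¹ * algebraMap S F b' = algebraMap S F a'
          rw [mul_assoc, inv_mul_cancel₀ hb0, mul_one]
      exists_of_eq := by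
        intro a b h
        refine ⟨1, ?_⟩
        have h1 : a = b := IsFractionRing.injective S F (congrArg (Subtype.val : _ → F) h)
        rw [h1] }

theorem mem_pow_P (hφV : ∀ s, φ s ∈ V)
    [IsLocalRing (lo (AA F φ V) (algebraMap S F).range)] (n : ℕ)
    (y : lo (AA F φ V) (algebraMap S F).range) :
    y ∈ maximalIdeal (lo (AA F φ V) (algebraMap S F).range) ^ n ↔
      ∃ s ∈ 𝔔 ^ n, ∃ t ∉ 𝔔, y * al F φ V t = al F φ V s := by
  have := prime_𝔔 h𝔔
  letI := (al F φ V).toAlgebra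
  have hloc := isLoc_P (F := F) h𝔔 hφV
  have h1 : maximalIdeal (lo (AA F φ V) (algebraMap S F).range) =
      𝔔.map (algebraMap S (lo (AA F φ V) (algebraMap S F).range)) :=
    (IsLocalization.AtPrime.map_eq_maximalIdeal 𝔔 _).symm
  rw [h1, ← Ideal.map_pow, IsLocalization.mem_map_algebraMap_iff 𝔔.primeCompl]
  constructor
  · rintro ⟨⟨⟨s, hs⟩, ⟨t, ht⟩⟩, h2⟩
    exact ⟨s, hs, t, ht, h2⟩
  · rintro ⟨s, hs, t, ht, h2⟩
    exact ⟨⟨⟨s, hs⟩, ⟨t, ht⟩⟩, h2⟩

theorem al_mem_pow (hφV : ∀ s, φ s ∈ V)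
    [IsLocalRing (lo (AA F φ V) (algebraMap S F).range)] (n : ℕ) {s : S} (hs : s ∈ 𝔔 ^ n) :
    al F φ V s ∈ maximalIdeal (lo (AA F φ V) (algebraMap S F).range) ^ n := by
  rw [mem_pow_P h𝔔 hφV]
  refine ⟨s, hs, 1, ?_, by rw [map_one, mul_one]⟩
  have := prime_𝔔 h𝔔
  exact (Ideal.ne_top_iff_one 𝔔).1 this.ne_top

theorem al_mem_max (hφV : ∀ s, φ s ∈ V)
    [IsLocalRing (lo (AA F φ V) (algebraMap S F).range)] {s : S} :
    al F φ V s ∈ maximalIdeal (lo (AA F φ V) (algebraMap S F).range) ↔ s ∈ 𝔔 := by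
  rw [mem_maximalIdeal, mem_nonunits_iff, isUnit_al hφV, not_not, h𝔔]

/-- The criterion for regularity. -/
theorem regular_of_notMem [IsRegularRing S] (hφV : ∀ s, φ s ∈ V) {f₀ : S} (hf₀ : φ f₀ = 0)
    (hgen : ∀ s, φ s = 0 → ∃ t, φ t ≠ 0 ∧ t * s ∈ Ideal.span {f₀})
    (hf : ∀ h, h ∉ 𝔔 → h * f₀ ∉ 𝔔 ^ 2) : IsRegularLocalRing (lo V.toSubring φ.range) := by
  let F := FractionRing S
  have h := HS.init (F := F) hφV hf₀ hgen
  have hloc := isLocalRing_P (F := F) hφV
  refine h.regular hloc fun h1 => ?_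
  obtain ⟨s, hs, t, ht, h2⟩ := (mem_pow_P h𝔔 hφV 2 _).1 h1
  have h3 : f₀ * t = s := by
    apply IsFractionRing.injective S F
    rw [map_mul]
    exact congrArg Subtype.val h2
  apply hf t ht
  rw [mul_comm, h3]
  exact hs

end

end Pool.Agent.Y223.CC
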