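import Pool.Agent.Y223.CC.Mod
import Pool.Agent.H918R2.Quad.HasModule

/-!
# Regular models of cyclic coverings
-/

set_option autoImplicit false
set_option linter.unusedVariables false
set_option linter.unusedSectionVars false

namespace Pool.Agent.Y223.CC

open IsLocalRing Pool.Agent.W418.LU2 Pool.Agent.TH188.QS Pool.Agent.TH188.ARC
  Pool.Agent.H918R2.Quad Polynomial

lemma lo_congr {K : Type} [Field K] {S : Type} [CommRing S] {φ : S →+* K} {𝔔 : Ideal S}
    {W W' : ValuationSubring K} (h : ∀ s, s ∈ 𝔔 ↔ W.valuation (φ s) < 1)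
    (h' : ∀ s, s ∈ 𝔔 ↔ W'.valuation (φ s) < 1) (hW : ∀ s, φ s ∈ W) (hW' : ∀ s, φ s ∈ W') :
    lo W.toSubring φ.range = lo W'.toSubring φ.range := by
  have key : ∀ (V V' : ValuationSubring K), (∀ s, s ∈ 𝔔 ↔ V.valuation (φ s) < 1) →
      (∀ s, s ∈ 𝔔 ↔ V'.valuation (φ s) < 1) → (∀ s, φ s ∈ V) → (∀ s, φ s ∈ V') →
      lo V.toSubring φ.range ≤ lo V'.toSubring φ.range := by
    intro V V' h h' hV hV' x hx
    obtain ⟨a, ha, b, hb, hb0, hbV, rfl⟩ := hx
    refine ⟨a, ha, b, hb, hb0, ?_, rfl⟩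
    obtain ⟨t, rfl⟩ := hb
    have h1 : t ∉ 𝔔 := by
      rw [h, not_lt]
      have h2 := (V.valuation_le_one_iff _).2 hbV
      rw [map_inv₀] at h2
      exact (inv_le_one₀ ((Valuation.pos_iff _).2 hb0)).1 h2
    rw [h', not_lt] at h1
    change (φ t)⁻¹ ∈ V'
    rw [← V'.valuation_le_one_iff, map_inv₀]
    exact (inv_le_one₀ ((Valuation.pos_iff _).2 hb0)).2 h1
  exact le_antisymm (key _ _ h h' hW hW') (key _ _ h' h hW' hW)

section

variable {O E K : Type} [CommRing O] [Field E] [Field K] [Algebra O E] [Algebra O K]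
  [Algebra E K] [IsScalarTower O E K] {ι : Type}

lemma rel_ph {H : ι → E} {e m : ℕ} (F : E) (f : ∀ j, AJ O H j)
    (hf : ∀ j, (f j : E) = F / H j ^ (e * m)) (z : K) (hz : z ^ e = algebraMap E K F) (j : ι) :
    ph O H m z j (X ^ e - C (f j)) = 0 := by
  rw [map_sub, map_pow, ph_C, ph_X, hf, div_pow, hz, ← pow_mul, map_div₀, map_pow, mul_comm m e,
    sub_self]

theorem cyc_module [IsDomain O] [IsNoetherianRing O] [Finite ι] [Nonempty ι] (H : ι → E)
    (hH : ∀ j, H j ≠ 0) (hreg : ∀ j, IsRegularRing (AJ O H j)) {e m : ℕ} (he : 2 ≤ e) (hm : 1 ≤ m)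
    (F : E) (f : ∀ j, AJ O H j) (hf : ∀ j, (f j : E) = F / H j ^ (e * m))
    (hcov : ∀ j, CovCond e (f j)) (hirr : Irreducible (X ^ e - C F : E[X]))
    (z : K) (hz : z ^ e = algebraMap E K F) :
    ∃ (D : ℕ) (M' : Submodule O K), 1 ≤ D ∧ M'.FG ∧ M' ≤ MM O H m z ^ D ∧
      (∀ y ∈ MM O H m z ^ D, ∃ s : O, s ≠ 0 ∧ s • y ∈ M') ∧ (∃ g ∈ M', g ≠ 0) ∧
      ∀ W : ValuationSubring K, (∀ o, algebraMap O K o ∈ W) → ∀ Q, LR W M' Q →
        IsRegularLocalRing Q := by
  classical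
  let Bad : Set (Subring K) := ⋃ j : ι, ⋃ 𝔔 ∈ (badI e (f j)).minimalPrimes,
    {Q | ∃ W : ValuationSubring K, (∀ s, s ∈ 𝔔 ↔ W.valuation (ph O H m z j s) < 1) ∧
      (∀ s, ph O H m z j s ∈ W) ∧ Q = lo W.toSubring (ph O H m z j).range}
  have hBad : Bad.Finite := by
    refine Set.finite_iUnion fun j => ?_
    have := hreg j
    refine Set.Finite.biUnion (Ideal.finite_minimalPrimes_of_isNoetherianRing _ _) fun 𝔔 _ => ?_
    refine Set.Subsingleton.finite ?_
    rintro Q ⟨W, h1, h2, rfl⟩ Q' ⟨W', h1', h2', rfl⟩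
    exact lo_congr h1 h1' h2 h2'
  obtain ⟨j₀⟩ := (inferInstance : Nonempty ι)
  refine blow_all hBad.toFinset.card hBad.toFinset le_rfl (mm_fg m z)
    ⟨_, hj_mem m z j₀, pow_ne_zero _ fun h => hH j₀ ((map_eq_zero _).1 h)⟩ ?_
  intro W hOW Q hQ
  obtain ⟨j, hj⟩ := exists_chart hH he F f hf z hz W hOW
  have hreg' := hreg j
  have hQeq : Q = lo W.toSubring (ph O H m z j).range := hQ.unique hOW (lr_chart hH hm z j W hj)
  let φ' : (AJ O H j)[X] →+* W := (ph O H m z j).codRestrict W hj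
  let 𝔔 : Ideal (AJ O H j)[X] := (maximalIdeal W).comap φ'
  have h𝔔 : ∀ s, s ∈ 𝔔 ↔ W.valuation (ph O H m z j s) < 1 := by
    intro s
    exact W.valuation_lt_one_iff (φ' s)
  rcases cyc_point h𝔔 hj he (hcov j) (rel_ph F f hf z hz j) (ker_ph hH he F f hf hirr z hz j)
    (fun a ha => by
      rw [ph_C] at ha
      exact Subtype.ext ((map_eq_zero _).1 ha)) with h | ⟨hmin, hqt, heQ, he0, hfin⟩
  · left
    rw [hQeq]
    exact h
  · right
    refine ⟨?_, ?_, ?_, ?_⟩
    · rw [Set.Finite.mem_toFinset]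
      refine Set.mem_iUnion.2 ⟨j, Set.mem_iUnion₂.2 ⟨𝔔, hmin, W, h𝔔, hj, hQeq⟩⟩
    · rw [hQeq]
      exact hqt
    · refine ⟨(e : O), ?_, ?_⟩
      · intro h
        apply he0
        rw [map_natCast] at h
        apply Subtype.ext
        have h1 : algebraMap E K (e : E) = 0 := by rw [map_natCast]; exact h
        have h2 := (map_eq_zero _).1 h1
        have h3 : ((e : AJ O H j) : E) = (e : E) := map_natCast (AJ O H j).val e
        exact h3.trans h2
      · have h1 := (h𝔔 _).1 heQ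
        rw [ph_C] at h1
        have h2 : algebraMap E K (((e : AJ O H j) : E)) = algebraMap O K (e : O) := by
          have h3 : ((e : AJ O H j) : E) = (e : E) := map_natCast (AJ O H j).val e
          rw [h3, map_natCast, map_natCast]
        rwa [h2] at h1
    · intro b hb hb1
      rw [hQeq] at hb
      exact tor_of_finite h𝔔 hj hfin b hb hb1

/-- The fraction fields of the charts. -/
theorem chart_frac [IsDomain O] (hO : Function.Injective (algebraMap O K)) (H : ι → E)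
    (hH : ∀ j, H j ≠ 0) (j : ι)
    (hfrac : ∀ y : E, ∃ b ∈ AJ O H j, ∃ c ∈ AJ O H j, y = b / c) {m : ℕ} (hm : 1 ≤ m)
    (z : K) (hgen : Algebra.adjoin E {z} = ⊤) {D : ℕ} (hD : 1 ≤ D) {M' : Submodule O K}
    (hM' : ∀ y ∈ MM O H m z ^ D, ∃ s : O, s ≠ 0 ∧ s • y ∈ M') (g : K) (hg : g ∈ M') (hg0 : g ≠ 0)
    (y : K) : ∃ b ∈ chart O M' g, ∃ c ∈ chart O M' g, c ≠ 0 ∧ y = b / c := by
  set R := chart O M' g with hR
  let L : Subfield K := Subfield.closure (R : Set K)
  have hRL : ∀ x ∈ R, x ∈ L := fun x hx => Subfield.subset_closure hx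
  have hOL : ∀ o, algebraMap O K o ∈ L := fun o => hRL _ (Subalgebra.algebraMap_mem _ o)
  have hML : ∀ x ∈ M', x / g ∈ L := fun x hx => hRL _ (Algebra.subset_adjoin ⟨x, hx, rfl⟩)
  have hMD : ∀ x ∈ MM O H m z ^ D, x / g ∈ L := by
    intro x hx
    obtain ⟨s, hs, hsx⟩ := hM' x hx
    have h1 := hML _ hsx
    have hs0 : algebraMap O K s ≠ 0 := fun h => hs (hO (by rw [h, map_zero]))
    have h2 : x / g = (algebraMap O K s)⁻¹ * (s • x / g) := by
      rw [Algebra.smul_def, mul_div_assoc, ← mul_assoc, inv_mul_cancel₀ hs0, one_mul]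
    rw [h2]
    exact L.mul_mem (L.inv_mem (hOL s)) h1
  have h0 : algebraMap E K (H j) ≠ 0 := fun h => hH j ((map_eq_zero _).1 h)
  have hMM : ∀ x ∈ MM O H m z, x / algebraMap E K (H j) ^ m ∈ L := by
    intro x hx
    obtain ⟨D', rfl⟩ : ∃ D', D = D' + 1 := ⟨D - 1, by omega⟩
    have h1 : x * (algebraMap E K (H j) ^ m) ^ D' ∈ MM O H m z ^ (D' + 1) := by
      rw [pow_succ']
      exact Submodule.mul_mem_mul hx (Submodule.pow_mem_pow _ (hj_mem m z j) D')
    have h2 : (algebraMap E K (H j) ^ m) ^ (D' + 1) ∈ MM O H m z ^ (D' + 1) :=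
      Submodule.pow_mem_pow _ (hj_mem m z j) _
    have h3 : x / algebraMap E K (H j) ^ m =
        (x * (algebraMap E K (H j) ^ m) ^ D' / g) / ((algebraMap E K (H j) ^ m) ^ (D' + 1) / g) := by
      have h4 := pow_ne_zero m h0
      field_simp
      ring
    rw [h3]
    exact L.div_mem (hMD _ h1) (hMD _ h2)
  have hAL : ∀ a ∈ AJ O H j, algebraMap E K a ∈ L := by
    intro a ha
    have h1 : chart O (MM O H m z) (algebraMap E K (H j) ^ m) ≤
        { L with algebraMap_mem' := hOL } := by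
      refine Algebra.adjoin_le ?_
      rintro _ ⟨x, hx, rfl⟩
      exact hMM x hx
    exact h1 (aj_le hH hm z j a ha)
  have hEL : ∀ a : E, algebraMap E K a ∈ L := by
    intro a
    obtain ⟨b, hb, c, hc, rfl⟩ := hfrac a
    rw [map_div₀]
    exact L.div_mem (hAL b hb) (hAL c hc)
  have hzL : z ∈ L := by
    have h1 := hMM z (z_mem m z)
    have h2 : z = (z / algebraMap E K (H j) ^ m) * algebraMap E K (H j ^ m) := by
      rw [map_pow, div_mul_cancel₀ _ (pow_ne_zero m h0)]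
    rw [h2]
    exact L.mul_mem h1 (hEL _)
  have hy : y ∈ L := by
    have h1 : Algebra.adjoin E {z} ≤ ({ L with algebraMap_mem' := hEL } : Subalgebra E K) := by
      refine Algebra.adjoin_le ?_
      rintro _ rfl
      exact hzL
    rw [hgen] at h1
    exact h1 (Algebra.mem_top (x := y))
  obtain ⟨b, hb, c, hc, hbc⟩ := Subfield.mem_closure_iff.1 hy
  have hcl : ∀ x ∈ Subring.closure (R : Set K), x ∈ R := by
    intro x hx
    have h1 : Subring.closure (R : Set K) ≤ R.toSubring := Subring.closure_le.2 fun x hx => hx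
    exact h1 hx
  by_cases hc0 : c = 0
  · refine ⟨0, Subalgebra.zero_mem _, 1, Subalgebra.one_mem _, one_ne_zero, ?_⟩
    rw [← hbc, hc0, div_zero, zero_div]
  · exact ⟨b, hcl b hb, c, hcl c hc, hc0, hbc.symm⟩

/-- Cyclic coverings have good modules. -/
theorem cyc_hasModule [IsDomain O] [IsNoetherianRing O] [Finite ι] [Nonempty ι]
    (hO : Function.Injective (algebraMap O K)) (H : ι → E)
    (hH : ∀ j, H j ≠ 0) (hreg : ∀ j, IsRegularRing (AJ O H j))
    (j₀ : ι) (hfrac : ∀ y : E, ∃ b ∈ AJ O H j₀, ∃ c ∈ AJ O H j₀, y = b / c)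
    {e m : ℕ} (he : 2 ≤ e) (hm : 1 ≤ m)
    (F : E) (f : ∀ j, AJ O H j) (hf : ∀ j, (f j : E) = F / H j ^ (e * m))
    (hcov : ∀ j, CovCond e (f j)) (hirr : Irreducible (X ^ e - C F : E[X]))
    (z : K) (hz : z ^ e = algebraMap E K F) (hgen : Algebra.adjoin E {z} = ⊤) :
    HasModule O K := by
  obtain ⟨D, M', hD, hfg, -, hsm, hne, hLR⟩ :=
    cyc_module H hH hreg he hm F f hf hcov hirr z hz
  refine ⟨M', hfg, hne, ?_, ?_⟩
  · intro g hg hg0 y
    exact chart_frac hO H hH j₀ hfrac hm z hgen hD hsm g hg hg0 y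
  · intro g hg hg0 q _
    exact chart_regular hLR g hg hg0 q

end

end Pool.Agent.Y223.CC
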