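import Pool.Agent.Y223.CC.Main

/-!
# Regular models of cyclic coverings: the coordinate rings of the charts given abstractly
-/

set_option autoImplicit false
set_option linter.unusedVariables false
set_option linter.unusedSectionVars false

namespace Pool.Agent.Y223.CC

open IsLocalRing Pool.Agent.W418.LU2 Pool.Agent.TH188.QS Pool.Agent.TH188.ARC
  Pool.Agent.H918R2.Quad Polynomial

section

variable {O E K : Type} [CommRing O] [Field E] [Field K] [Algebra O E] [Algebra O K]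
  [Algebra E K] [IsScalarTower O E K] {ι : Type}

/-- The parametrization of the chart by an abstract ring. -/
noncomputable def ph' (H : ι → E) (m : ℕ) (z : K) {j : ι} {A : Type} [CommRing A]
    (ε : A ≃+* AJ O H j) : A[X] →+* K :=
  (ph O H m z j).comp (mapRingHom (ε : A →+* AJ O H j))

lemma ph'_C {H : ι → E} (m : ℕ) (z : K) {j : ι} {A : Type} [CommRing A]
    (ε : A ≃+* AJ O H j) (a : A) : ph' H m z ε (C a) = algebraMap E K (ε a : E) := by
  unfold ph'
  rw [RingHom.comp_apply, coe_mapRingHom, map_C, ph_C]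
  rfl

lemma ph'_X {H : ι → E} (m : ℕ) (z : K) {j : ι} {A : Type} [CommRing A]
    (ε : A ≃+* AJ O H j) : ph' H m z ε X = z / algebraMap E K (H j) ^ m := by
  unfold ph'
  rw [RingHom.comp_apply, coe_mapRingHom, map_X, ph_X]

lemma range_ph' {H : ι → E} (m : ℕ) (z : K) {j : ι} {A : Type} [CommRing A]
    (ε : A ≃+* AJ O H j) : (ph' H m z ε).range = (ph O H m z j).range := by
  unfold ph'
  apply le_antisymm
  · rintro _ ⟨s, rfl⟩
    exact ⟨_, rfl⟩
  · rintro _ ⟨s, rfl⟩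
    obtain ⟨t, rfl⟩ := map_surjective (ε : A →+* AJ O H j) ε.surjective s
    exact ⟨t, rfl⟩

theorem cyc_module' [IsDomain O] [IsNoetherianRing O] [Finite ι] [Nonempty ι] (H : ι → E)
    (hH : ∀ j, H j ≠ 0) {e m : ℕ} (he : 2 ≤ e) (hm : 1 ≤ m)
    (F : E) (f : ∀ j, AJ O H j) (hf : ∀ j, (f j : E) = F / H j ^ (e * m))
    (z : K) (hz : z ^ e = algebraMap E K F)
    (A : ι → Type) [∀ j, CommRing (A j)] [∀ j, IsDomain (A j)] [∀ j, IsRegularRing (A j)]
    (ε : ∀ j, A j ≃+* AJ O H j) (f' : ∀ j, A j) (hf' : ∀ j, ε j (f' j) = f j)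
    (hcov : ∀ j, CovCond e (f' j))
    (hker : ∀ j, ∀ s : (A j)[X], ph' H m z (ε j) s = 0 → s ∈ Ideal.span {X ^ e - C (f' j)}) :
    ∃ (D : ℕ) (M' : Submodule O K), 1 ≤ D ∧ M'.FG ∧ M' ≤ MM O H m z ^ D ∧
      (∀ y ∈ MM O H m z ^ D, ∃ s : O, s ≠ 0 ∧ s • y ∈ M') ∧ (∃ g ∈ M', g ≠ 0) ∧
      ∀ W : ValuationSubring K, (∀ o, algebraMap O K o ∈ W) → ∀ Q, LR W M' Q →
        IsRegularLocalRing Q := by
  classical
  let Bad : Set (Subring K) := ⋃ j : ι, ⋃ 𝔔 ∈ (badI e (f' j)).minimalPrimes,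
    {Q | ∃ W : ValuationSubring K, (∀ s, s ∈ 𝔔 ↔ W.valuation (ph' H m z (ε j) s) < 1) ∧
      (∀ s, ph' H m z (ε j) s ∈ W) ∧ Q = lo W.toSubring (ph' H m z (ε j)).range}
  have hBad : Bad.Finite := by
    refine Set.finite_iUnion fun j => ?_
    refine Set.Finite.biUnion (Ideal.finite_minimalPrimes_of_isNoetherianRing _ _) fun 𝔔 _ => ?_
    refine Set.Subsingleton.finite ?_
    rintro Q ⟨W, h1, h2, rfl⟩ Q' ⟨W', h1', h2', rfl⟩
    exact lo_congr h1 h1' h2 h2'
  obtain ⟨j₀⟩ := (inferInstance : Nonempty ι)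
  refine blow_all hBad.toFinset.card hBad.toFinset le_rfl (mm_fg m z)
    ⟨_, hj_mem m z j₀, pow_ne_zero _ fun h => hH j₀ ((map_eq_zero _).1 h)⟩ ?_
  intro W hOW Q hQ
  obtain ⟨j, hj⟩ := exists_chart hH he F f hf z hz W hOW
  have hj' : ∀ s, ph' H m z (ε j) s ∈ W := fun s => hj _
  have hQeq : Q = lo W.toSubring (ph' H m z (ε j)).range := by
    rw [range_ph']
    exact hQ.unique hOW (lr_chart hH hm z j W hj)
  let φ' : (A j)[X] →+* W := (ph' H m z (ε j)).codRestrict W hj'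
  let 𝔔 : Ideal (A j)[X] := (maximalIdeal W).comap φ'
  have h𝔔 : ∀ s, s ∈ 𝔔 ↔ W.valuation (ph' H m z (ε j) s) < 1 := by
    intro s
    exact W.valuation_lt_one_iff (φ' s)
  have hinj : ∀ a, ph' H m z (ε j) (C a) = 0 → a = 0 := fun a ha => by
    rw [ph'_C] at ha
    have h1 : ε j a = 0 := Subtype.ext ((map_eq_zero _).1 ha)
    exact (map_eq_zero_iff _ (ε j).injective).1 h1
  rcases cyc_point h𝔔 hj' he (hcov j) (by
      rw [map_sub, map_pow, ph'_C, ph'_X, hf', hf, div_pow, hz, ← pow_mul, map_div₀, map_pow,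
        mul_comm m e, sub_self]) (hker j) hinj with h | ⟨hmin, hqt, heQ, he0, hfin⟩
  · left
    rw [hQeq]
    exact h
  · right
    refine ⟨?_, ?_, ?_, ?_⟩
    · rw [Set.Finite.mem_toFinset]
      refine Set.mem_iUnion.2 ⟨j, Set.mem_iUnion₂.2 ⟨𝔔, hmin, W, h𝔔, hj', hQeq⟩⟩
    · rw [hQeq]
      exact hqt
    · have h3 : ph' H m z (ε j) (C (e : A j)) = algebraMap O K (e : O) := by
        have h4 : (C (e : A j) : (A j)[X]) = (e : (A j)[X]) := map_natCast C e
        rw [h4, map_natCast, map_natCast]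
      refine ⟨(e : O), ?_, ?_⟩
      · intro h
        exact he0 (hinj _ (h3.trans h))
      · have h1 := (h𝔔 _).1 heQ
        rwa [h3] at h1
    · intro b hb hb1
      rw [hQeq] at hb
      exact tor_of_finite h𝔔 hj' hfin b hb hb1

end

end Pool.Agent.Y223.CC
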