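import Pool.Agent.Y223.CC.Point

/-!
# The module of a cyclic covering
-/

set_option autoImplicit false
set_option linter.unusedVariables false
set_option linter.unusedSectionVars false

namespace Pool.Agent.Y223.CC

open IsLocalRing Pool.Agent.W418.LU2 Pool.Agent.TH188.QS Pool.Agent.TH188.ARC
  Pool.Agent.H918R2.Quad Polynomial

section

variable (O : Type) {E : Type} [CommRing O] [Field E] [Algebra O E] {ι : Type} (H : ι → E)

/-- The coordinate ring of the chart `H j ≠ 0`. -/
def AJ (j : ι) : Subalgebra O E := Algebra.adjoin O (Set.range fun l => H l / H j)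

variable (K : Type) [Field K] [Algebra O K] [Algebra E K]

/-- The module of the base. -/
def M0 : Submodule O K := Submodule.span O (Set.range fun l => algebraMap E K (H l))

variable {K}

/-- The module of the covering. -/
def MM (m : ℕ) (z : K) : Submodule O K := M0 O H K ^ m ⊔ Submodule.span O {z}

/-- The parametrization of the chart. -/
noncomputable def ph (m : ℕ) (z : K) (j : ι) : (AJ O H j)[X] →+* K :=
  eval₂RingHom ((algebraMap E K).comp (AJ O H j).val.toRingHom) (z / algebraMap E K (H j) ^ m)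

variable {O H}

lemma ph_C (m : ℕ) (z : K) (j : ι) (a : AJ O H j) :
    ph O H m z j (C a) = algebraMap E K a := by
  change eval₂ _ _ (C a) = _
  rw [eval₂_C]
  rfl

lemma ph_X (m : ℕ) (z : K) (j : ι) : ph O H m z j X = z / algebraMap E K (H j) ^ m := by
  change eval₂ _ _ X = _
  rw [eval₂_X]

lemma mm_fg [Finite ι] (m : ℕ) (z : K) : (MM O H m z).FG := by
  refine Submodule.FG.sup ?_ (Submodule.fg_span_singleton z)
  exact Submodule.FG.pow (Submodule.fg_span (Set.finite_range _)) m

variable [IsScalarTower O E K]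

lemma m0_div (hH : ∀ j, H j ≠ 0) (j : ι) (x : K) (hx : x ∈ M0 O H K) :
    ∃ a : AJ O H j, algebraMap E K a = x / algebraMap E K (H j) := by
  induction hx using Submodule.span_induction with
  | mem x hx =>
    obtain ⟨l, rfl⟩ := hx
    exact ⟨⟨H l / H j, Algebra.subset_adjoin ⟨l, rfl⟩⟩, map_div₀ _ _ _⟩
  | zero => exact ⟨0, by rw [zero_div]; exact map_zero _⟩
  | add x y _ _ hx hy =>
    obtain ⟨a, ha⟩ := hx
    obtain ⟨b, hb⟩ := hy
    exact ⟨a + b, by rw [add_div, ← ha, ← hb]; exact map_add _ _ _⟩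
  | smul r x _ hx =>
    obtain ⟨a, ha⟩ := hx
    refine ⟨algebraMap O _ r * a, ?_⟩
    rw [Algebra.smul_def r x, mul_div_assoc, ← ha, IsScalarTower.algebraMap_apply O E K,
      ← map_mul]
    rfl

lemma m0_pow_div (hH : ∀ j, H j ≠ 0) (j : ι) (m : ℕ) : ∀ x ∈ M0 O H K ^ m,
    ∃ a : AJ O H j, algebraMap E K a = x / algebraMap E K (H j) ^ m := by
  induction m with
  | zero =>
    intro x hx
    rw [pow_zero, Submodule.mem_one] at hx
    obtain ⟨r, rfl⟩ := hx
    refine ⟨algebraMap O _ r, ?_⟩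
    rw [pow_zero, div_one, IsScalarTower.algebraMap_apply O E K]
    rfl
  | succ m ih =>
    intro x hx
    rw [pow_succ] at hx
    refine Submodule.mul_induction_on hx ?_ ?_
    · intro x hx y hy
      obtain ⟨a, ha⟩ := ih x hx
      obtain ⟨b, hb⟩ := m0_div hH j y hy
      refine ⟨a * b, ?_⟩
      rw [pow_succ, mul_div_mul_comm, ← ha, ← hb]
      exact map_mul _ _ _
    · rintro x y ⟨a, ha⟩ ⟨b, hb⟩
      exact ⟨a + b, by rw [add_div, ← ha, ← hb]; exact map_add _ _ _⟩

lemma h_mem (l : ι) : algebraMap E K (H l) ∈ M0 O H K := Submodule.subset_span ⟨l, rfl⟩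

lemma hj_mem (m : ℕ) (z : K) (j : ι) : algebraMap E K (H j) ^ m ∈ MM O H m z :=
  Submodule.mem_sup_left (Submodule.pow_mem_pow _ (h_mem j) m)

lemma z_mem (m : ℕ) (z : K) : z ∈ MM O H m z :=
  Submodule.mem_sup_right (Submodule.mem_span_singleton_self z)

lemma mm_div (hH : ∀ j, H j ≠ 0) (m : ℕ) (z : K) (j : ι) (x : K) (hx : x ∈ MM O H m z) :
    x / algebraMap E K (H j) ^ m ∈ (ph O H m z j).range := by
  obtain ⟨a, ha, b, hb, rfl⟩ := Submodule.mem_sup.1 hx
  obtain ⟨c, rfl⟩ := Submodule.mem_span_singleton.1 hb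
  rw [add_div]
  refine Subring.add_mem _ ?_ ?_
  · obtain ⟨a', ha'⟩ := m0_pow_div hH j m a ha
    exact ⟨C a', by rw [ph_C]; exact ha'⟩
  · refine ⟨C (algebraMap O _ c) * X, ?_⟩
    rw [map_mul, ph_C, ph_X, Algebra.smul_def, mul_div_assoc]
    congr 1
    rw [IsScalarTower.algebraMap_apply O E K]
    rfl

lemma aj_le (hH : ∀ j, H j ≠ 0) {m : ℕ} (hm : 1 ≤ m) (z : K) (j : ι) (a : E)
    (ha : a ∈ AJ O H j) :
    algebraMap E K a ∈ chart O (MM O H m z) (algebraMap E K (H j) ^ m) := by
  induction ha using Algebra.adjoin_induction with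
  | mem x hx =>
    obtain ⟨l, rfl⟩ := hx
    refine Algebra.subset_adjoin ⟨algebraMap E K (H l) * algebraMap E K (H j) ^ (m - 1), ?_, ?_⟩
    · refine Submodule.mem_sup_left ?_
      obtain ⟨m', rfl⟩ : ∃ m', m = m' + 1 := ⟨m - 1, by omega⟩
      rw [Nat.add_sub_cancel, pow_succ']
      exact Submodule.mul_mem_mul (h_mem l) (Submodule.pow_mem_pow _ (h_mem j) m')
    · obtain ⟨m', rfl⟩ : ∃ m', m = m' + 1 := ⟨m - 1, by omega⟩
      have h1 : algebraMap E K (H j) ≠ 0 := fun h => hH j ((map_eq_zero _).1 h)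
      rw [Nat.add_sub_cancel, map_div₀]
      field_simp
      ring
  | algebraMap r =>
    rw [← IsScalarTower.algebraMap_apply O E K]
    exact Subalgebra.algebraMap_mem _ r
  | add x y _ _ hx hy =>
    rw [map_add]
    exact Subalgebra.add_mem _ hx hy
  | mul x y _ _ hx hy =>
    rw [map_mul]
    exact Subalgebra.mul_mem _ hx hy

theorem range_ph (hH : ∀ j, H j ≠ 0) {m : ℕ} (hm : 1 ≤ m) (z : K) (j : ι) :
    (ph O H m z j).range = (chart O (MM O H m z) (algebraMap E K (H j) ^ m)).toSubring := by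
  apply le_antisymm
  · rintro _ ⟨s, rfl⟩
    change _ ∈ chart O (MM O H m z) (algebraMap E K (H j) ^ m)
    induction s using Polynomial.induction_on' with
    | add p q hp hq =>
      rw [map_add]
      exact Subalgebra.add_mem _ hp hq
    | monomial n a =>
      rw [← C_mul_X_pow_eq_monomial, map_mul, map_pow, ph_C, ph_X]
      refine Subalgebra.mul_mem _ (aj_le hH hm z j _ a.2) (Subalgebra.pow_mem _ ?_ _)
      exact Algebra.subset_adjoin ⟨z, z_mem m z, rfl⟩
  · let B : Subalgebra O K :=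
      { (ph O H m z j).range with
        algebraMap_mem' := fun r => ⟨C (algebraMap O _ r), by
          rw [ph_C, IsScalarTower.algebraMap_apply O E K]
          rfl⟩ }
    have h1 : chart O (MM O H m z) (algebraMap E K (H j) ^ m) ≤ B := by
      refine Algebra.adjoin_le ?_
      rintro _ ⟨x, hx, rfl⟩
      exact mm_div hH m z j x hx
    intro x hx
    exact h1 hx

/-- The index of the chart of a valuation. -/
lemma exists_chart [Finite ι] [Nonempty ι] (hH : ∀ j, H j ≠ 0) {e m : ℕ} (he : 2 ≤ e)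
    (F : E) (f : ∀ j, AJ O H j)
    (hf : ∀ j, (f j : E) = F / H j ^ (e * m)) (z : K) (hz : z ^ e = algebraMap E K F)
    (W : ValuationSubring K) (hOW : ∀ o, algebraMap O K o ∈ W) :
    ∃ j, ∀ s, ph O H m z j s ∈ W := by
  obtain ⟨j, hj⟩ := Finite.exists_max (fun l => W.valuation (algebraMap E K (H l)))
  have h0 : algebraMap E K (H j) ≠ 0 := fun h => hH j ((map_eq_zero _).1 h)
  have hA : ∀ a ∈ AJ O H j, algebraMap E K a ∈ W := by
    intro a ha
    induction ha using Algebra.adjoin_induction with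
    | mem x hx =>
      obtain ⟨l, rfl⟩ := hx
      rw [map_div₀, ← W.valuation_le_one_iff, map_div₀]
      exact div_le_one_of_le₀ (hj l) zero_le
    | algebraMap r =>
      rw [← IsScalarTower.algebraMap_apply O E K]
      exact hOW r
    | add x y _ _ hx hy =>
      rw [map_add]
      exact W.add_mem _ _ hx hy
    | mul x y _ _ hx hy =>
      rw [map_mul]
      exact W.mul_mem _ _ hx hy
  have hzW : z / algebraMap E K (H j) ^ m ∈ W := by
    have h1 : (z / algebraMap E K (H j) ^ m) ^ e = algebraMap E K (f j : E) := by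
      rw [hf, div_pow, hz, ← pow_mul, map_div₀, map_pow, mul_comm m e]
    have h2 := hA _ (f j).2
    rw [← h1, ← W.valuation_le_one_iff, map_pow] at h2
    rw [← W.valuation_le_one_iff]
    exact (pow_le_one_iff (by omega)).1 h2
  refine ⟨j, fun s => ?_⟩
  induction s using Polynomial.induction_on' with
  | add p q hp hq =>
    rw [map_add]
    exact W.add_mem _ _ hp hq
  | monomial n a =>
    rw [← C_mul_X_pow_eq_monomial, map_mul, map_pow, ph_C, ph_X]
    exact W.mul_mem _ _ (hA _ a.2) (pow_mem hzW n)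

lemma lr_chart (hH : ∀ j, H j ≠ 0) {m : ℕ} (hm : 1 ≤ m) (z : K) (j : ι)
    (W : ValuationSubring K) (hW : ∀ s, ph O H m z j s ∈ W) :
    LR W (MM O H m z) (lo W.toSubring (ph O H m z j).range) := by
  have h0 : algebraMap E K (H j) ≠ 0 := fun h => hH j ((map_eq_zero _).1 h)
  refine ⟨algebraMap E K (H j) ^ m, hj_mem m z j, pow_ne_zero _ h0, ?_, by rw [range_ph hH hm]⟩
  intro x hx
  obtain ⟨s, hs⟩ := mm_div hH m z j x hx
  rw [← hs]
  exact hW s

lemma ker_ph (hH : ∀ j, H j ≠ 0) {e m : ℕ} (he : 2 ≤ e) (F : E) (f : ∀ j, AJ O H j)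
    (hf : ∀ j, (f j : E) = F / H j ^ (e * m)) (hirr : Irreducible (X ^ e - C F : E[X]))
    (z : K) (hz : z ^ e = algebraMap E K F) (j : ι) (s : (AJ O H j)[X])
    (hs : ph O H m z j s = 0) : s ∈ Ideal.span {(X ^ e - C (f j) : (AJ O H j)[X])} := by
  have h0 : algebraMap E K (H j) ≠ 0 := fun h => hH j ((map_eq_zero _).1 h)
  have hmonic : (X ^ e - C (f j) : (AJ O H j)[X]).Monic := monic_X_pow_sub_C (f j) (by omega)
  have hmonic' : (X ^ e - C F : E[X]).Monic := monic_X_pow_sub_C F (by omega)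
  have hrel : ph O H m z j (X ^ e - C (f j)) = 0 := by
    rw [map_sub, map_pow, ph_C, ph_X, hf, div_pow, hz, ← pow_mul, map_div₀, map_pow, mul_comm m e,
      sub_self]
  have hmin : minpoly E z = X ^ e - C F := by
    refine (minpoly.eq_of_irreducible_of_monic hirr ?_ hmonic').symm
    rw [map_sub, map_pow, aeval_X, aeval_C, hz, sub_self]
  set r := s %ₘ (X ^ e - C (f j)) with hr
  have hdeg : r.degree < e := by
    have h1 := degree_modByMonic_lt s hmonic
    rwa [degree_X_pow_sub_C (by omega)] at h1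
  have hdeg' : r.natDegree < e := by
    by_cases h : r = 0
    · rw [h, natDegree_zero]; omega
    · exact (natDegree_lt_iff_degree_lt h).2 hdeg
  have hr0 : ph O H m z j r = 0 := by
    have h1 := congrArg (ph O H m z j) (modByMonic_add_div s (X ^ e - C (f j)))
    rw [map_add, map_mul, hrel, zero_mul, add_zero, hs] at h1
    exact h1
  set c : E := H j ^ m with hc
  have hc0 : c ≠ 0 := pow_ne_zero _ (hH j)
  let r' : E[X] := ∑ i ∈ Finset.range e, C ((r.coeff i : E) * (c⁻¹) ^ i) * X ^ i
  have hr' : aeval z r' = 0 := by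
    rw [← hr0]
    have h5 := as_sum_range_C_mul_X_pow' r hdeg'
    conv_rhs => rw [h5]
    simp only [r']
    rw [map_sum, map_sum]
    refine Finset.sum_congr rfl fun i _ => ?_
    rw [map_mul (aeval z), map_mul (ph O H m z j), map_pow (aeval z), map_pow (ph O H m z j),
      aeval_C, aeval_X, ph_C, ph_X, map_mul, map_pow,
      map_inv₀, hc, map_pow, div_pow, mul_assoc, inv_pow]
    congr 1
    rw [div_eq_mul_inv, mul_comm]
  have hr'0 : r' = 0 := by
    refine eq_zero_of_dvd_of_degree_lt (minpoly.dvd E z hr') ?_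
    rw [hmin, degree_X_pow_sub_C (by omega), degree_lt_iff_coeff_zero]
    intro i hi
    simp only [r', finsetSum_coeff, coeff_C_mul, coeff_X_pow, mul_ite, mul_one,
      mul_zero, Finset.sum_ite_eq]
    rw [if_neg (by rw [Finset.mem_range]; omega)]
  have hcoef : ∀ i ∈ Finset.range e, r.coeff i = 0 := by
    intro i hi
    have h1 := congrArg (fun q => coeff q i) hr'0
    simp only [r', finsetSum_coeff, coeff_C_mul, coeff_X_pow, coeff_zero, mul_ite, mul_one,
      mul_zero, Finset.sum_ite_eq, hi, if_true] at h1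
    have h2 := (mul_eq_zero.1 h1).resolve_right (pow_ne_zero _ (inv_ne_zero hc0))
    exact Subtype.ext h2
  have hrz : r = 0 := by
    rw [as_sum_range_C_mul_X_pow' r hdeg']
    refine Finset.sum_eq_zero fun i hi => ?_
    rw [hcoef i hi, map_zero, zero_mul]
  rw [Ideal.mem_span_singleton]
  exact (modByMonic_eq_zero_iff_dvd hmonic).1 hrz

end

end Pool.Agent.Y223.CC
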