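import Pool.Agent.Y223.CC.LocP

/-!
# Parameters at the points of the affine line over a regular ring
-/

set_option autoImplicit false
set_option linter.unusedVariables false
set_option linter.unusedSectionVars false

universe u v

namespace Pool.Agent.Y223.CC

open IsLocalRing Pool.Agent.W418.LU2 Pool.Agent.TH188.QS

section

variable {A : Type u} [CommRing A] [IsDomain A] [IsRegularRing A]

/-- Parameters of a regular ring at a prime, with one of them prescribed. -/
theorem exists_params_base (𝔮 : Ideal A) [𝔮.IsPrime] (c : A) (hc : c ∈ 𝔮)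
    (hc2 : ∀ h, h ∉ 𝔮 → h * c ∉ 𝔮 ^ 2) :
    ∃ (m : ℕ) (t : Fin m → A), (∀ i, t i ∈ 𝔮) ∧
      𝔮.height = ((Fintype.card (Unit ⊕ Fin m) : ℕ) : ℕ∞) ∧
      ∀ a ∈ 𝔮, ∃ s, s ∉ 𝔮 ∧ s * a ∈ Ideal.span (Set.range (Sum.elim (fun _ : Unit => c) t)) := by
  classical
  let B := Localization.AtPrime 𝔮
  have hinj : Function.Injective (algebraMap A B) :=
    IsLocalization.injective B 𝔮.primeCompl_le_nonZeroDivisors
  have hmem : ∀ a : A, algebraMap A B a ∈ maximalIdeal B ↔ a ∈ 𝔮 := fun a =>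
    IsLocalization.AtPrime.to_map_mem_maximal_iff B 𝔮 a
  have hc2' : algebraMap A B c ∉ maximalIdeal B ^ 2 := by
    intro h1
    rw [← Localization.AtPrime.map_eq_maximalIdeal, ← Ideal.map_pow,
      IsLocalization.mem_map_algebraMap_iff 𝔮.primeCompl] at h1
    obtain ⟨⟨⟨s, hs⟩, ⟨t, ht⟩⟩, h2⟩ := h1
    apply hc2 t ht
    have h3 : c * t = s := hinj (by rw [map_mul]; exact h2)
    rw [mul_comm, h3]
    exact hs
  have h0 : Ind (fun _ : Unit => algebraMap A B c) := by
    refine ⟨fun _ => (hmem c).2 hc, fun d hd i => ?_⟩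
    rw [Fintype.sum_unique (ι := Unit)] at hd
    by_contra hci
    rw [mem_maximalIdeal, mem_nonunits_iff, not_not] at hci
    exact hc2' ((Ideal.unit_mul_mem_iff_mem _ hci).1 hd)
  obtain ⟨m, w, hw, hd⟩ := h0.extend
  have hws : ∀ i, ∃ (a : A) (s : 𝔮.primeCompl), w i * algebraMap A B s = algebraMap A B a := by
    intro i
    obtain ⟨⟨a, s⟩, h1⟩ := IsLocalization.surj 𝔮.primeCompl (w i)
    exact ⟨a, s, h1⟩
  choose t s hts using hws
  have hwm : ∀ i, w i ∈ maximalIdeal B := fun i => by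
    rw [← hw]
    exact Ideal.subset_span ⟨Sum.inr i, rfl⟩
  have htq : ∀ i, t i ∈ 𝔮 := fun i => by
    rw [← hmem, ← hts i]
    exact Ideal.mul_mem_right _ _ (hwm i)
  have hspan : maximalIdeal B ≤ (Ideal.span (Set.range (Sum.elim (fun _ : Unit => c) t))).map
      (algebraMap A B) := by
    rw [← hw, Ideal.span_le]
    rintro _ ⟨i, rfl⟩
    rcases i with i | i
    · exact Ideal.mem_map_of_mem _ (Ideal.subset_span ⟨Sum.inl i, rfl⟩)
    · have h1 : w i * algebraMap A B (s i) ∈ (Ideal.span (Set.range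
          (Sum.elim (fun _ : Unit => c) t))).map (algebraMap A B) := by
        rw [hts i]
        exact Ideal.mem_map_of_mem _ (Ideal.subset_span ⟨Sum.inr i, rfl⟩)
      exact (Ideal.mul_unit_mem_iff_mem _ (IsLocalization.map_units B (s i))).1 h1
  refine ⟨m, t, htq, ?_, ?_⟩
  · have h1 := IsLocalization.AtPrime.ringKrullDim_eq_height 𝔮 B
    rw [hd] at h1
    rw [Fintype.card_sum, Fintype.card_fin]
    exact_mod_cast h1.symm
  · intro a ha
    have h1 := hspan ((hmem a).2 ha)
    rw [IsLocalization.mem_map_algebraMap_iff 𝔮.primeCompl] at h1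
    obtain ⟨⟨⟨b, hb⟩, ⟨r, hr⟩⟩, h2⟩ := h1
    refine ⟨r, hr, ?_⟩
    have h3 : a * r = b := hinj (by rw [map_mul]; exact h2)
    rw [mul_comm, h3]
    exact hb

variable {F K : Type u} [Field F] [Algebra (Polynomial A) F] [IsFractionRing (Polynomial A) F]
  [Field K] {φ : Polynomial A →+* K} {V : ValuationSubring K}
  {𝔔 : Ideal (Polynomial A)}

/-- Parameters at a point of the affine line. -/
theorem exists_params (h𝔔 : ∀ s, s ∈ 𝔔 ↔ V.valuation (φ s) < 1) (hφV : ∀ s, φ s ∈ V)
    (𝔮 : Ideal A) [𝔮.IsMaximal] (hq : ∀ a, Polynomial.C a ∈ 𝔔 ↔ a ∈ 𝔮)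
    (hne : 𝔔 ≠ 𝔮.map Polynomial.C) (c : A) (hc : c ∈ 𝔮) (hc2 : ∀ h, h ∉ 𝔮 → h * c ∉ 𝔮 ^ 2)
    (hreg : IsRegularLocalRing (lo (AA F φ V) (algebraMap (Polynomial A) F).range)) :
    ∃ (m : ℕ) (t : Fin m → A) (y : Polynomial A), (∀ i, t i ∈ 𝔮) ∧ y ∈ 𝔔 ∧
      Ideal.span (Set.range fun i => al F φ V
        (Sum.elim (fun i => Polynomial.C (Sum.elim (fun _ : Unit => c) t i))
          (fun _ : Unit => y) i)) =
        maximalIdeal (lo (AA F φ V) (algebraMap (Polynomial A) F).range) ∧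
      Ind (fun i => al F φ V (Sum.elim (fun i => Polynomial.C (Sum.elim (fun _ : Unit => c) t i))
          (fun _ : Unit => y) i)) := by
  classical
  have hp𝔔 := prime_𝔔 h𝔔
  obtain ⟨m, t, ht, hht, hts⟩ := exists_params_base 𝔮 c hc hc2
  have hcomap : 𝔔.comap Polynomial.C = 𝔮 := by
    ext a
    exact hq a
  obtain ⟨y, -, hy⟩ := Polynomial.exists_monic_span_sup_map_eq A 𝔔 (by rw [hcomap]; infer_instance)
    (by rw [hcomap]; exact hne)
  rw [hcomap] at hy
  have hyQ : y ∈ 𝔔 := by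
    rw [hy]
    exact Ideal.mem_sup_right (Ideal.mem_span_singleton_self y)
  set P := lo (AA F φ V) (algebraMap (Polynomial A) F).range with hP
  set x : (Unit ⊕ Fin m) ⊕ Unit → Polynomial A :=
    Sum.elim (fun i => Polynomial.C (Sum.elim (fun _ : Unit => c) t i)) (fun _ : Unit => y) with hx
  have hxQ : ∀ i, x i ∈ 𝔔 := by
    rintro ((i | i) | i)
    · exact (hq c).2 hc
    · exact (hq _).2 (ht i)
    · exact hyQ
  have hspan : Ideal.span (Set.range fun i => al F φ V (x i)) = maximalIdeal P := by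
    apply le_antisymm
    · rw [Ideal.span_le]
      rintro _ ⟨i, rfl⟩
      exact (al_mem_max h𝔔 hφV).2 (hxQ i)
    · intro z hz
      rw [← pow_one (maximalIdeal P), mem_pow_P h𝔔 hφV] at hz
      obtain ⟨s, hs, r, hr, hsr⟩ := hz
      have hru : IsUnit (al F φ V r) := by
        by_contra h1
        exact hr ((al_mem_max h𝔔 hφV).1 ((mem_maximalIdeal _).2 h1))
      rw [← Ideal.mul_unit_mem_iff_mem _ hru, hsr]
      rw [pow_one, hy] at hs
      obtain ⟨s₁, hs₁, s₂, hs₂, rfl⟩ := Submodule.mem_sup.1 hs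
      rw [map_add]
      refine Ideal.add_mem _ ?_ ?_
      · have h1 : 𝔮.map Polynomial.C ≤ (Ideal.span (Set.range fun i => al F φ V (x i))).comap
            (al F φ V) := by
          rw [Ideal.map_le_iff_le_comap]
          intro a ha
          rw [Ideal.mem_comap, Ideal.mem_comap]
          obtain ⟨s', hs', hsa⟩ := hts a ha
          have hsu : IsUnit (al F φ V (Polynomial.C s')) := by
            by_contra h1
            exact hs' ((hq s').1 ((al_mem_max h𝔔 hφV).1 ((mem_maximalIdeal _).2 h1)))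
          rw [← Ideal.unit_mul_mem_iff_mem _ hsu, ← map_mul, ← Polynomial.C_mul]
          have h2 : Ideal.span (Set.range (Sum.elim (fun _ : Unit => c) t)) ≤
              (Ideal.span (Set.range fun i => al F φ V (x i))).comap
                ((al F φ V).comp Polynomial.C) := by
            rw [Ideal.span_le]
            rintro _ ⟨i, rfl⟩
            exact Ideal.subset_span ⟨Sum.inl i, rfl⟩
          exact h2 hsa
        exact h1 hs₁
      · obtain ⟨b, rfl⟩ := Ideal.mem_span_singleton'.1 hs₂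
        rw [map_mul]
        exact Ideal.mul_mem_left _ _ (Ideal.subset_span ⟨Sum.inr (), rfl⟩)
  refine ⟨m, t, y, ht, hyQ, hspan, ind_of_span hspan ?_⟩
  have hloc := isLoc_P (F := F) h𝔔 hφV
  have h1 : ringKrullDim P = 𝔔.height := by
    let _ : Algebra (Polynomial A) P := (al F φ V).toAlgebra
    have hloc' : IsLocalization.AtPrime P 𝔔 := hloc
    exact IsLocalization.AtPrime.ringKrullDim_eq_height 𝔔 P
  have h2 : 𝔮.height + 1 ≤ 𝔔.height := by
    rw [← Polynomial.height_map_C 𝔮]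
    have : (𝔮.map Polynomial.C).IsPrime := Ideal.isPrime_map_C_of_isPrime
    refine Ideal.height_add_one_le_of_lt_of_isPrime (lt_of_le_of_ne ?_ (Ne.symm hne))
    rw [Ideal.map_le_iff_le_comap, hcomap]
  rw [h1, Fintype.card_sum, Fintype.card_unit]
  rw [hht] at h2
  exact_mod_cast WithBot.coe_le_coe.mpr h2

end

end Pool.Agent.Y223.CC
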