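import Mathlib
import Pool.Agent.TH214.RM.LemL

/-!
# The regular points of cyclic coverings
-/

set_option autoImplicit false
set_option linter.unusedVariables false
set_option linter.unusedSectionVars false

namespace Pool.Agent.Y223.CC

open Polynomial

section

variable {A : Type} [CommRing A]

theorem isMaximal_of_finite {𝔮 : Ideal A} (h𝔮 : 𝔮.IsPrime) (hfin : Finite (A ⧸ 𝔮)) :
    𝔮.IsMaximal := by
  have : IsDomain (A ⧸ 𝔮) := Ideal.Quotient.isDomain 𝔮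
  exact Ideal.Quotient.maximal_of_isField 𝔮 (Finite.isField_of_domain (A ⧸ 𝔮))

/-- The wild points which are not `p`-th powers modulo the square. -/
theorem wild [IsNoetherianRing A] (𝔮 : Ideal A) (h𝔮 : 𝔮.IsPrime)
    (hfin : Finite (A ⧸ 𝔮)) (e : ℕ) (f : A) (p : ℕ) (hp : p.Prime) (hpe : p ∣ e)
    (hpq : (p : A) ∈ 𝔮) (hw : ∀ g, f - g ^ p ∉ 𝔮 ^ 2)
    (𝔔 : Ideal A[X]) (h𝔔 : 𝔔.IsPrime) (hq : ∀ a, C a ∈ 𝔔 ↔ a ∈ 𝔮) (hG : X ^ e - C f ∈ 𝔔)
    (h : A[X]) (hh : h ∉ 𝔔) : h * (X ^ e - C f) ∉ 𝔔 ^ 2 := by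
  intro hcon
  have hqmax := isMaximal_of_finite h𝔮 hfin
  obtain ⟨g, hgq⟩ : ∃ g : A, f - g ^ p ∈ 𝔮 := by
    have : IsDomain (A ⧸ 𝔮) := Ideal.Quotient.isDomain 𝔮
    have : Fact p.Prime := ⟨hp⟩
    have : CharP (A ⧸ 𝔮) p := by
      rw [CharP.charP_iff_prime_eq_zero hp]
      have h1 := Ideal.Quotient.eq_zero_iff_mem.2 hpq
      rwa [map_natCast] at h1
    have hs : Function.Surjective (frobenius (A ⧸ 𝔮) p) :=
      Finite.injective_iff_surjective.1 (frobenius_inj (A ⧸ 𝔮) p)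
    obtain ⟨gb, hgb⟩ := hs (Ideal.Quotient.mk 𝔮 f)
    obtain ⟨g, rfl⟩ := Ideal.Quotient.mk_surjective gb
    refine ⟨g, ?_⟩
    rw [← Ideal.Quotient.eq_zero_iff_mem, map_sub, map_pow]
    rw [frobenius_def] at hgb
    rw [hgb, sub_self]
  obtain ⟨e', he'⟩ := hpe
  let z : A[X] := X ^ e'
  have hz : (X ^ e : A[X]) = z ^ p := by
    rw [he', mul_comm, pow_mul]
  set w := z - C g with hw'
  obtain ⟨ρ, hρ⟩ := exists_add_pow_prime_eq hp (C g) w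
  have hzw : C g + w = z := by rw [hw']; ring
  rw [hzw] at hρ
  have hpQ : (p : A[X]) ∈ 𝔔 := by
    have h1 := (hq (p : A)).2 hpq
    rwa [map_natCast] at h1
  have hwQ : w ∈ 𝔔 := by
    apply h𝔔.mem_of_pow_mem p
    have h1 : z ^ p - C f ∈ 𝔔 := by rw [← hz]; exact hG
    have h2 : C (f - g ^ p) ∈ 𝔔 := (hq _).2 hgq
    rw [map_sub, map_pow] at h2
    have h3 : w ^ p = (z ^ p - C f) + (C f - C g ^ p) - (p : A[X]) *
        C g * w * ρ := by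
      rw [hρ]
      ring
    rw [h3]
    refine 𝔔.sub_mem (𝔔.add_mem h1 h2) ?_
    rw [mul_assoc, mul_assoc]
    exact 𝔔.mul_mem_right _ hpQ
  have hdiff : (z ^ p - C f) + C (f - g ^ p) ∈ 𝔔 ^ 2 := by
    have h3 : (z ^ p - C f) + C (f - g ^ p) = w ^ p + (p : A[X]) * w * (C g * ρ) := by
      rw [hρ, map_sub, map_pow]
      ring
    rw [h3]
    refine Ideal.add_mem _ ?_ (Ideal.mul_mem_right _ _ ?_)
    · exact Ideal.pow_le_pow_right hp.two_le (Ideal.pow_mem_pow hwQ p)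
    · rw [pow_two]
      exact Ideal.mul_mem_mul hpQ hwQ
  have hcon2 : h * C (f - g ^ p) ∈ 𝔔 ^ 2 := by
    rw [hz] at hcon
    have h3 : h * C (f - g ^ p) = h * ((z ^ p - C f) + C (f - g ^ p)) - h * (z ^ p - C f) := by
      ring
    rw [h3]
    exact Ideal.sub_mem _ (Ideal.mul_mem_left _ _ hdiff) hcon
  exact Pool.Agent.TH214.RM.lemL 𝔮 hqmax (f - g ^ p) hgq (hw g) 𝔔 h𝔔 hq h hh hcon2

/-- Derivations of the elements of the square. -/
theorem deriv_sq {S : Type} [CommRing S] (δ : S → S) (h1 : ∀ a b, δ (a + b) = δ a + δ b)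
    (h2 : ∀ a b, δ (a * b) = a * δ b + b * δ a) {𝔔 : Ideal S} {G h : S} (hG : G ∈ 𝔔)
    (hh : h * G ∈ 𝔔 ^ 2) : h * δ G ∈ 𝔔 := by
  have key : ∀ y ∈ 𝔔 ^ 2, δ y ∈ 𝔔 := by
    intro y hy
    rw [pow_two] at hy
    refine Submodule.mul_induction_on hy ?_ ?_
    · intro a ha b hb
      rw [h2]
      exact 𝔔.add_mem (𝔔.mul_mem_right _ ha) (𝔔.mul_mem_right _ hb)
    · intro a b ha hb
      rw [h1]
      exact 𝔔.add_mem ha hb
  have h3 := key _ hh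
  rw [h2] at h3
  have h4 := 𝔔.sub_mem h3 (𝔔.mul_mem_right (δ h) hG)
  rwa [add_sub_cancel_right] at h4

/-- The points of the branch divisor. -/
theorem branch (e : ℕ) (he : 2 ≤ e) (f : A)
    (𝔮 : Ideal A) (hf : ∀ h, h ∉ 𝔮 → h * f ∉ 𝔮 ^ 2)
    (𝔔 : Ideal A[X]) (hq : ∀ a, C a ∈ 𝔔 ↔ a ∈ 𝔮) (hX : X ∈ 𝔔)
    (h : A[X]) (hh : h ∉ 𝔔) : h * (X ^ e - C f) ∉ 𝔔 ^ 2 := by
  intro hcon
  have key : ∀ s ∈ 𝔔, s.eval 0 ∈ 𝔮 := by
    intro s hs
    rw [← hq]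
    have h1 : s - C (s.eval 0) ∈ 𝔔 := by
      have h2 : X ∣ s - C (s.eval 0) := by
        rw [X_dvd_iff]
        simp [coeff_zero_eq_eval_zero]
      obtain ⟨t, ht⟩ := h2
      rw [ht]
      exact 𝔔.mul_mem_right _ hX
    have h3 := 𝔔.sub_mem hs h1
    rwa [sub_sub_cancel] at h3
  have key2 : ∀ s ∈ 𝔔 ^ 2, s.eval 0 ∈ 𝔮 ^ 2 := by
    intro s hs
    have h1 : (𝔔 ^ 2).map (evalRingHom (0 : A)) ≤ 𝔮 ^ 2 := by
      rw [Ideal.map_pow]
      refine Ideal.pow_right_mono ?_ 2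
      rw [Ideal.map_le_iff_le_comap]
      intro g hg
      exact key g hg
    exact h1 (Ideal.mem_map_of_mem _ hs)
  have h1 := key2 _ hcon
  rw [eval_mul, eval_sub, eval_pow, eval_X, eval_C, zero_pow (by omega), zero_sub, mul_neg] at h1
  refine hf (h.eval 0) ?_ (by simpa using (𝔮 ^ 2).neg_mem h1)
  intro h2
  apply hh
  have h3 : h - C (h.eval 0) ∈ 𝔔 := by
    have h2 : X ∣ h - C (h.eval 0) := by
      rw [X_dvd_iff]
      simp [coeff_zero_eq_eval_zero]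
    obtain ⟨t, ht⟩ := h2
    rw [ht]
    exact 𝔔.mul_mem_right _ hX
  have h4 := 𝔔.add_mem h3 ((hq _).2 h2)
  rwa [sub_add_cancel] at h4

/-- Finite quotients. -/
theorem finite_quot (e : ℕ) (he : 2 ≤ e) (f : A) (𝔮 : Ideal A) (hfin : Finite (A ⧸ 𝔮))
    (𝔔 : Ideal A[X]) (hq : ∀ a, C a ∈ 𝔔 ↔ a ∈ 𝔮) (hG : X ^ e - C f ∈ 𝔔) :
    Finite (A[X] ⧸ 𝔔) := by
  have hmonic : (X ^ e - C f : A[X]).Monic := monic_X_pow_sub_C f (by omega)
  let ψ : A →+* A[X] ⧸ 𝔔 := (Ideal.Quotient.mk 𝔔).comp C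
  have hψ : ∀ a ∈ 𝔮, ψ a = 0 := fun a ha => Ideal.Quotient.eq_zero_iff_mem.2 ((hq a).2 ha)
  let ψ' : A ⧸ 𝔮 →+* A[X] ⧸ 𝔔 := Ideal.Quotient.lift 𝔮 ψ hψ
  have hsurj : ∀ y : A[X] ⧸ 𝔔, ∃ c : Fin e → A ⧸ 𝔮,
      y = ∑ i : Fin e, ψ' (c i) * (Ideal.Quotient.mk 𝔔 X) ^ (i : ℕ) := by
    intro y
    obtain ⟨s, rfl⟩ := Ideal.Quotient.mk_surjective y
    refine ⟨fun i => Ideal.Quotient.mk 𝔮 ((s %ₘ (X ^ e - C f)).coeff i), ?_⟩
    have h1 : Ideal.Quotient.mk 𝔔 s = Ideal.Quotient.mk 𝔔 (s %ₘ (X ^ e - C f)) := by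
      rw [Ideal.Quotient.eq]
      have h2 := modByMonic_add_div s (X ^ e - C f)
      have h3 : s - s %ₘ (X ^ e - C f) = (X ^ e - C f) * (s /ₘ (X ^ e - C f)) := by
        nth_rewrite 1 [← h2]
        ring
      rw [h3]
      exact 𝔔.mul_mem_right _ hG
    rw [h1]
    by_cases hA : Subsingleton A
    · have : Subsingleton (A[X] ⧸ 𝔔) := by
        have : Subsingleton A[X] := inferInstance
        exact Function.Surjective.subsingleton Ideal.Quotient.mk_surjective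
      exact Subsingleton.elim _ _
    have : Nontrivial A := not_subsingleton_iff_nontrivial.1 hA
    have hdeg : (s %ₘ (X ^ e - C f)).natDegree < e := by
      have h2 := natDegree_modByMonic_lt s hmonic (by
        intro h3
        have h4 := congrArg natDegree h3
        rw [natDegree_X_pow_sub_C, natDegree_one] at h4
        omega)
      rwa [natDegree_X_pow_sub_C] at h2
    have h5 := as_sum_range_C_mul_X_pow' (s %ₘ (X ^ e - C f)) hdeg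
    have h6 := congrArg (Ideal.Quotient.mk 𝔔) h5
    rw [h6, map_sum, Finset.sum_range]
    refine Finset.sum_congr rfl fun i _ => ?_
    rw [map_mul, map_pow]
    rfl
  choose c hc using hsurj
  have hinj : Function.Injective c := by
    intro y y' h
    rw [hc y, hc y', h]
  exact Finite.of_injective c hinj

end

end Pool.Agent.Y223.CC
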