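import Pool.Agent.Y223.CC.Crit
import Pool.Agent.Y223.CC.Wild
import Pool.Agent.Y223.CC.Blow

/-!
# The points of cyclic coverings
-/

set_option autoImplicit false
set_option linter.unusedVariables false
set_option linter.unusedSectionVars false

namespace Pool.Agent.Y223.CC

open IsLocalRing Pool.Agent.W418.LU2 Pool.Agent.TH188.QS Polynomial

/-- The conditions on the equation. -/
structure CovCond (e : ℕ) {A : Type} [CommRing A] (f : A) : Prop where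
  reg : ∀ 𝔮 : Ideal A, 𝔮.IsPrime → f ∈ 𝔮 → ∀ h, h ∉ 𝔮 → h * f ∉ 𝔮 ^ 2
  crit : ∀ 𝔮 : Ideal A, 𝔮.IsPrime → (e : A) ∈ 𝔮 → f ∉ 𝔮 → (∀ D : Derivation ℤ A A, D f ∈ 𝔮) →
    Finite (A ⧸ 𝔮) ∧
    ((∀ p : ℕ, p.Prime → (p : A) ∈ 𝔮 → ∀ g, f - g ^ p ∉ 𝔮 ^ 2) ∨
     ((e : A) ∉ 𝔮 ^ 2 ∧
      𝔮 ≤ Ideal.span ({(e : A)} ∪ {b | ∃ D : Derivation ℤ A A, b = D f}) ⊔ 𝔮 ^ 2))

/-- The ideal of the bad points. -/
noncomputable def badI (e : ℕ) {A : Type} [CommRing A] (f : A) : Ideal A[X] :=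
  Ideal.span ({X ^ e - C f, C (e : A)} ∪ {s | ∃ D : Derivation ℤ A A, s = C (D f)})

section

variable {A : Type} [CommRing A] {e : ℕ} {f : A}

lemma badI_le {𝔔 : Ideal A[X]} : badI e f ≤ 𝔔 ↔
    (X ^ e - C f ∈ 𝔔 ∧ C (e : A) ∈ 𝔔 ∧ ∀ D : Derivation ℤ A A, C (D f) ∈ 𝔔) := by
  rw [badI, Ideal.span_le]
  constructor
  · intro h
    exact ⟨h (Or.inl (Or.inl rfl)), h (Or.inl (Or.inr rfl)), fun D => h (Or.inr ⟨D, rfl⟩)⟩
  · rintro ⟨h1, h2, h3⟩ s (hs | ⟨D, rfl⟩)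
    · rcases hs with hs | hs
      · rw [hs]; exact h1
      · rw [Set.mem_singleton_iff] at hs
        rw [hs]; exact h2
    · exact h3 D

lemma bad_min (he : 2 ≤ e) (hf : CovCond e f) {𝔔 : Ideal A[X]} (h𝔔 : 𝔔.IsPrime)
    (hle : badI e f ≤ 𝔔) (hX : X ∉ 𝔔) : 𝔔 ∈ (badI e f).minimalPrimes := by
  refine ⟨⟨h𝔔, hle⟩, ?_⟩
  rintro 𝔔' ⟨h𝔔', hle'⟩ h1
  obtain ⟨hG, he', hD⟩ := badI_le.1 hle'
  have hX' : X ∉ 𝔔' := fun h => hX (h1 h)
  have hfq : f ∉ 𝔔'.comap C := by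
    intro h
    have h2 := 𝔔'.add_mem hG (show C f ∈ 𝔔' from h)
    rw [sub_add_cancel] at h2
    exact hX' (h𝔔'.mem_of_pow_mem _ h2)
  have hp : (𝔔'.comap C).IsPrime := Ideal.comap_isPrime _ _
  obtain ⟨hfin, -⟩ := hf.crit (𝔔'.comap C) hp he' hfq hD
  have h2 := finite_quot e he f (𝔔'.comap C) hfin 𝔔' (fun a => Iff.rfl) hG
  have h3 := isMaximal_of_finite h𝔔' h2
  exact (h3.eq_of_le h𝔔.ne_top h1).ge

variable [IsDomain A] [IsRegularRing A]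

lemma notMem_sq {𝔮 : Ideal A} (h𝔮 : 𝔮.IsMaximal) {x : A} (hx : x ∈ 𝔮) (hx2 : x ∉ 𝔮 ^ 2) (h : A)
    (hh : h ∉ 𝔮) : h * x ∉ 𝔮 ^ 2 := by
  intro hcon
  have h1 : 𝔮 ⊔ Ideal.span {h} = ⊤ := by
    refine h𝔮.1.2 _ (lt_of_le_of_ne le_sup_left fun h1 => hh ?_)
    rw [h1]
    exact Ideal.mem_sup_right (Ideal.mem_span_singleton_self h)
  have h2 : (1 : A) ∈ 𝔮 ⊔ Ideal.span {h} := by rw [h1]; trivial
  obtain ⟨c, hc, y, hy, hcy⟩ := Submodule.mem_sup.1 h2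
  obtain ⟨b, rfl⟩ := Ideal.mem_span_singleton'.1 hy
  apply hx2
  have h3 : x = c * x + b * (h * x) := by
    have h4 : x = (c + b * h) * x := by rw [hcy, one_mul]
    nth_rewrite 1 [h4]
    ring
  rw [h3]
  refine Ideal.add_mem _ ?_ (Ideal.mul_mem_left _ _ hcon)
  rw [pow_two]
  exact Ideal.mul_mem_mul hc hx

lemma exists_mul_mem {𝔮 J : Ideal A} (h𝔮 : 𝔮.IsPrime) (h : 𝔮 ≤ J ⊔ 𝔮 ^ 2) :
    ∀ a ∈ 𝔮, ∃ s, s ∉ 𝔮 ∧ s * a ∈ J := by
  have hfg : 𝔮.FG := IsNoetherian.noetherian 𝔮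
  obtain ⟨r, hr, hr'⟩ := Submodule.exists_sub_one_mem_and_smul_le_of_fg_of_le_sup (I := 𝔮)
    (N := J) (N' := 𝔮) (P := 𝔮) hfg le_rfl (by
      rw [smul_eq_mul, ← pow_two]
      exact h)
  intro a ha
  refine ⟨r, ?_, hr' (Submodule.smul_mem_pointwise_smul a r 𝔮 ha)⟩
  intro h1
  have h2 := 𝔮.sub_mem h1 hr
  rw [sub_sub_cancel] at h2
  exact h𝔮.ne_top ((Ideal.eq_top_iff_one 𝔮).2 h2)

variable {K : Type} [Field K] {φ : A[X] →+* K} {V : ValuationSubring K} {𝔔 : Ideal A[X]}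

theorem cyc_point (h𝔔 : ∀ s, s ∈ 𝔔 ↔ V.valuation (φ s) < 1) (hφV : ∀ s, φ s ∈ V)
    (he : 2 ≤ e) (hf : CovCond e f) (hrel : φ (X ^ e - C f) = 0)
    (hker : ∀ s, φ s = 0 → s ∈ Ideal.span {X ^ e - C f}) (hinj : ∀ a, φ (C a) = 0 → a = 0) :
    IsRegularLocalRing (lo V.toSubring φ.range) ∨
      (𝔔 ∈ (badI e f).minimalPrimes ∧
        IsRegularLocalRing (qt V.toSubring (lo V.toSubring φ.range)) ∧
        C (e : A) ∈ 𝔔 ∧ (e : A) ≠ 0 ∧ Finite (A[X] ⧸ 𝔔)) := by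
  have hp := prime_𝔔 h𝔔
  set 𝔮 : Ideal A := 𝔔.comap C with h𝔮
  have hq : ∀ a, C a ∈ 𝔔 ↔ a ∈ 𝔮 := fun a => Iff.rfl
  have h𝔮p : 𝔮.IsPrime := Ideal.comap_isPrime _ _
  have hgen : ∀ s, φ s = 0 → ∃ t, φ t ≠ 0 ∧ t * s ∈ Ideal.span {X ^ e - C f} := fun s hs =>
    ⟨1, by rw [map_one]; exact one_ne_zero, by rw [one_mul]; exact hker s hs⟩
  have hGQ : X ^ e - C f ∈ 𝔔 := (h𝔔 _).2 (by rw [hrel, map_zero]; exact zero_lt_one)
  have regular : (∀ h, h ∉ 𝔔 → h * (X ^ e - C f) ∉ 𝔔 ^ 2) →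
      IsRegularLocalRing (lo V.toSubring φ.range) := fun h => regular_of_notMem h𝔔 hφV hrel hgen h
  by_cases hX : X ∈ 𝔔
  · left
    apply regular
    have hfq : f ∈ 𝔮 := by
      have h1 : C f = X ^ e - (X ^ e - C f) := by ring
      rw [← hq, h1]
      exact 𝔔.sub_mem (𝔔.pow_mem_of_mem hX e (by omega)) hGQ
    exact branch e he f 𝔮 (hf.reg 𝔮 h𝔮p hfq) 𝔔 hq hX
  by_cases heq : (e : A) ∈ 𝔮
  swap
  · left
    apply regular
    intro h hh hcon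
    have h1 : h * derivative (X ^ e - C f) ∈ 𝔔 :=
      deriv_sq (S := A[X]) (𝔔 := 𝔔) (G := X ^ e - C f) (h := h) (fun s : A[X] => derivative s)
        (fun a b => map_add derivative a b)
        (fun a b => by rw [derivative_mul, mul_comm a, add_comm]; ring) hGQ hcon
    have h2 : derivative (X ^ e - C f) = C (e : A) * X ^ (e - 1) := by
      rw [derivative_sub, derivative_C, sub_zero, derivative_X_pow]
    rw [h2] at h1
    rcases hp.mem_or_mem h1 with h3 | h3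
    · exact hh h3
    · rcases hp.mem_or_mem h3 with h4 | h4
      · exact heq ((hq _).1 h4)
      · exact hX (hp.mem_of_pow_mem _ h4)
  by_cases hD : ∀ D : Derivation ℤ A A, D f ∈ 𝔮
  swap
  · left
    push Not at hD
    obtain ⟨D, hD⟩ := hD
    apply regular
    intro h hh hcon
    obtain ⟨δ, hδX, hδC⟩ := exists_mapCoeffs D
    have h1 : h * δ (X ^ e - C f) ∈ 𝔔 :=
      deriv_sq (fun s => δ s) (fun a b => map_add δ a b) (fun a b => by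
        rw [Derivation.leibniz]; rfl) hGQ hcon
    have h2 : δ (X ^ e - C f) = - C (D f) := by
      rw [map_sub, hδC, Derivation.leibniz_pow, hδX, smul_zero, smul_zero, zero_sub]
    rw [h2, mul_neg, neg_mem_iff] at h1
    rcases hp.mem_or_mem h1 with h3 | h3
    · exact hh h3
    · exact hD ((hq _).1 h3)
  have hfq : f ∉ 𝔮 := by
    intro h
    have h2 := 𝔔.add_mem hGQ ((hq f).2 h)
    rw [sub_add_cancel] at h2
    exact hX (hp.mem_of_pow_mem _ h2)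
  obtain ⟨hfin, hc⟩ := hf.crit 𝔮 h𝔮p heq hfq hD
  have hqm := isMaximal_of_finite h𝔮p hfin
  rcases hc with hc | ⟨he2, hc⟩
  · left
    apply regular
    have : IsDomain (A ⧸ 𝔮) := Ideal.Quotient.isDomain 𝔮
    obtain ⟨p, hpc⟩ := CharP.exists (A ⧸ 𝔮)
    have hp0 : p.Prime := (CharP.char_is_prime_or_zero (A ⧸ 𝔮) p).resolve_right
      (CharP.char_ne_zero_of_finite (A ⧸ 𝔮) p)
    have hpe : p ∣ e := by
      rw [← CharP.cast_eq_zero_iff (A ⧸ 𝔮) p e]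
      have h1 := Ideal.Quotient.eq_zero_iff_mem.2 heq
      rwa [map_natCast] at h1
    have hpq : (p : A) ∈ 𝔮 := by
      rw [← Ideal.Quotient.eq_zero_iff_mem, map_natCast]
      exact CharP.cast_eq_zero _ p
    exact wild 𝔮 h𝔮p hfin e f p hp0 hpe hpq (hc p hp0 hpq) 𝔔 hp hq hGQ
  · have he0 : (e : A) ≠ 0 := by
      intro h
      apply he2
      rw [h]
      exact Ideal.zero_mem _
    rcases critical h𝔔 hφV 𝔮 hq e he f hrel hgen hX heq (notMem_sq hqm heq he2)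
      (fun h => he0 (hinj _ h)) (exists_mul_mem h𝔮p hc) with h1 | h1
    · exact Or.inl h1
    · exact Or.inr ⟨bad_min he hf hp (badI_le.2 ⟨hGQ, heq, hD⟩) hX, h1, heq, he0,
        finite_quot e he f 𝔮 hfin 𝔔 hq hGQ⟩

/-- The residue units are torsion. -/
theorem tor_of_finite (h𝔔 : ∀ s, s ∈ 𝔔 ↔ V.valuation (φ s) < 1) (hφV : ∀ s, φ s ∈ V)
    (hfin : Finite (A[X] ⧸ 𝔔)) (b : K) (hb : b ∈ lo V.toSubring φ.range)
    (hb1 : ¬ V.valuation b < 1) : ∃ k : ℕ, V.valuation (b ^ (k + 1) - 1) < 1 := by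
  have hp := prime_𝔔 h𝔔
  obtain ⟨x, hx, y, hy, hy0, hyV, rfl⟩ := hb
  obtain ⟨s, rfl⟩ := hx
  obtain ⟨t, rfl⟩ := hy
  have ht1 : V.valuation (φ t) = 1 := by
    refine val_unit (hφV _) fun h => ?_
    have h1 := (V.valuation_le_one_iff _).2 hyV
    rw [map_inv₀] at h1
    have h2 := (inv_le_one₀ ((Valuation.pos_iff _).2 hy0)).1 h1
    exact absurd h (not_lt.2 h2)
  have ht : t ∉ 𝔔 := fun h => by
    have := (h𝔔 t).1 h
    rw [ht1] at this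
    exact lt_irrefl _ this
  have hs : s ∉ 𝔔 := fun h => hb1 (by
    rw [map_mul, map_inv₀, ht1, inv_one, mul_one]
    exact (h𝔔 s).1 h)
  have hmax := isMaximal_of_finite hp hfin
  have : Fintype (A[X] ⧸ 𝔔) := Fintype.ofFinite _
  let _ : Field (A[X] ⧸ 𝔔) := Ideal.Quotient.field 𝔔
  have hs' : Ideal.Quotient.mk 𝔔 s ≠ 0 := fun h => hs (Ideal.Quotient.eq_zero_iff_mem.1 h)
  have ht' : Ideal.Quotient.mk 𝔔 t ≠ 0 := fun h => ht (Ideal.Quotient.eq_zero_iff_mem.1 h)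
  have hc : 2 ≤ Fintype.card (A[X] ⧸ 𝔔) := Fintype.one_lt_card
  refine ⟨Fintype.card (A[X] ⧸ 𝔔) - 1 - 1, ?_⟩
  rw [show Fintype.card (A[X] ⧸ 𝔔) - 1 - 1 + 1 = Fintype.card (A[X] ⧸ 𝔔) - 1 by omega]
  set n := Fintype.card (A[X] ⧸ 𝔔) - 1 with hn
  have h1 : s ^ n - t ^ n ∈ 𝔔 := by
    rw [← Ideal.Quotient.eq_zero_iff_mem, map_sub, map_pow, map_pow,
      FiniteField.pow_card_sub_one_eq_one _ hs', FiniteField.pow_card_sub_one_eq_one _ ht',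
      sub_self]
  have h2 : (φ s * (φ t)⁻¹) ^ n - 1 = φ (s ^ n - t ^ n) * ((φ t)⁻¹) ^ n := by
    rw [map_sub, map_pow, map_pow, sub_mul, ← mul_pow, ← mul_pow, mul_inv_cancel₀ hy0, one_pow]
  rw [h2, map_mul, map_pow, map_inv₀, ht1, inv_one, one_pow, mul_one]
  exact (h𝔔 _).1 h1

end

end Pool.Agent.Y223.CC
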