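import Pool.Agent.Y223.CC.Cone
import Pool.Agent.TH188.QS.Main

/-!
# Hypersurfaces in regular local rings and their quadratic transforms
-/

set_option autoImplicit false
set_option linter.unusedVariables false
set_option linter.unusedSectionVars false

universe u v

namespace Pool.Agent.Y223.CC

open IsLocalRing Pool.Agent.W418.LU2 Pool.Agent.TH188.QS

section

variable {S F K : Type u} [CommRing S] [IsDomain S] [Field F] [Algebra S F] [IsFractionRing S F]
  [Field K] {φ : S →+* K} {V : ValuationSubring K}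

/-- The regular local ring `P` and the equation `f` of the local ring `Q`. -/
structure HS (φ : S →+* K) (V : ValuationSubring K) (Q : Subring K) (P : Subring F) (f : F) :
    Prop where
  PW : P ≤ AA F φ V
  ic : IC (AA F φ V) P
  reg : IsRegularLocalRing P
  SP : ∀ s, algebraMap S F s ∈ P
  imQ : im φ P = Q
  fP : f ∈ P
  f0 : Pr φ f 0
  gen : ∀ y : F, Pr φ y 0 → ∃ g : F, (∃ w, Pr φ g w) ∧ y = g * f

lemma der_zero (φ : S →+* K) : Der φ (fun _ => (0 : K)) :=
  { add := fun _ _ => (add_zero 0).symm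
    mul := fun _ _ => by rw [mul_zero, mul_zero, add_zero] }

lemma dd_der_zero {z : F} {w : K} (h : Pr φ z w) : dd φ (fun _ => (0 : K)) z = 0 := by
  refine JP.dd (der_zero φ) (w := w) ?_
  obtain ⟨a, b, h1, h2, h3⟩ := h
  exact ⟨a, b, h1, h2, h3, by rw [zero_mul, mul_zero, sub_zero]⟩

variable {Q : Subring K} {P : Subring F} {f : F}

theorem HS.toUS (h : HS φ V Q P f) :
    US V (fun _ : Fin 1 => der_zero φ) 1 (fun _ => (0 : S)) (fun _ => Q) 0 P (fun _ => f)
      (fun _ => 1) 1 where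
  PW := h.PW
  ic := h.ic
  reg := h.reg
  SP := h.SP
  imQ := h.imQ
  zbQ := fun i hi => absurd hi (Nat.not_lt_zero i)
  bd := by
    intro j y hy
    obtain ⟨w, hw, h1⟩ := h.PW hy
    exact ⟨w, hw, h1, by rw [dd_der_zero h1, mul_zero]; exact V.zero_mem⟩
  fP := fun _ => h.fP
  f0 := fun _ => h.f0
  gen := by
    intro y hy
    obtain ⟨g, hg, h1⟩ := h.gen y hy
    exact ⟨fun _ => g, fun _ => hg, by rw [Fin.sum_univ_one]; exact h1⟩
  u0 := one_ne_zero
  uV := by rw [inv_one]; exact V.one_mem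
  det := by
    rw [Finset.prod_range_zero, one_pow, mul_one, one_mul]
    congr 1
    ext i j
    rw [Matrix.of_apply, Matrix.of_apply, dd_der_zero h.f0]

/-- If the equation is not in the square of the maximal ideal then the ring is regular. -/
theorem HS.regular (h : HS φ V Q P f) (hloc : IsLocalRing P)
    (hf : (⟨f, h.fP⟩ : P) ∉ maximalIdeal P ^ 2) : IsRegularLocalRing Q := by
  have hreg := h.reg
  have R0 := h.toUS.regP
  have hfm : (⟨f, h.fP⟩ : P) ∈ maximalIdeal P := by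
    rw [R0.mem_max]
    exact (Pr.nu h.f0).2 NU.zero
  refine h.toUS.regular ⟨fun _ => hfm, fun c hc i => ?_⟩
  rw [Fin.sum_univ_one] at hc
  by_contra hci
  have hi : i = 0 := Subsingleton.elim _ _
  rw [hi, mem_maximalIdeal, mem_nonunits_iff, not_not] at hci
  exact hf ((Ideal.unit_mul_mem_iff_mem _ hci).1 hc)

/-- The initial state. -/
theorem HS.init [IsRegularRing S] (hφV : ∀ s, φ s ∈ V) {f₀ : S} (hf₀ : φ f₀ = 0)
    (hgen : ∀ s, φ s = 0 → ∃ t, φ t ≠ 0 ∧ t * s ∈ Ideal.span {f₀}) :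
    HS (F := F) φ V (lo V.toSubring φ.range) (lo (AA F φ V) (algebraMap S F).range)
      (algebraMap S F f₀) := by
  have h := US.init (F := F) (fun _ : Fin 1 => der_zero φ) (C := 1) (f₀ := fun _ => f₀)
    (Q := fun _ => lo V.toSubring φ.range) hφV (fun _ _ => by rw [mul_zero]; exact V.zero_mem)
    (fun _ => hf₀) (fun s hs => by
      obtain ⟨t, h1, h2⟩ := hgen s hs
      refine ⟨t, h1, ?_⟩
      rw [Set.range_const]
      exact h2) rfl
  exact
    { PW := h.PW
      ic := h.ic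
      reg := h.reg
      SP := h.SP
      imQ := h.imQ
      fP := h.fP 0
      f0 := h.f0 0
      gen := by
        intro y hy
        obtain ⟨g, hg, h1⟩ := h.gen y hy
        exact ⟨g 0, hg 0, by rw [Fin.sum_univ_one] at h1; exact h1⟩ }

theorem pow_div_mem {A P : Subring F} (hPA : P ≤ A) [IsLocalRing P]
    (hmax : ∀ y : P, y ∈ maximalIdeal P ↔ NU A (y : F)) {z : F} (hM : Mi A P z) (n : ℕ) :
    ∀ y ∈ maximalIdeal P ^ n, (y : F) * z⁻¹ ^ n ∈ qt A P := by
  induction n with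
  | zero =>
    intro y _
    rw [pow_zero, mul_one]
    exact le_qt _ _ y.2
  | succ n ih =>
    intro y hy
    rw [pow_succ] at hy
    refine Submodule.mul_induction_on hy ?_ ?_
    · intro b hb c hc
      have h2 : ((b * c : P) : F) * z⁻¹ ^ (n + 1) = ((b : F) * z⁻¹ ^ n) * ((c : F) * z⁻¹) := by
        change (b : F) * (c : F) * z⁻¹ ^ (n + 1) = _
        rw [pow_succ]
        ring
      rw [h2]
      exact Subring.mul_mem _ (ih b hb) (div_mem_qt hM c.2 ((hmax c).1 hc))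
    · intro b c hb hc
      have h2 : ((b + c : P) : F) * z⁻¹ ^ (n + 1) = (b : F) * z⁻¹ ^ (n + 1) +
          (c : F) * z⁻¹ ^ (n + 1) := by
        change ((b : F) + (c : F)) * z⁻¹ ^ (n + 1) = _
        ring
      rw [h2]
      exact Subring.add_mem _ hb hc

/-- The next state. -/
theorem HS.next (h : HS φ V Q P f) {e : K} (he : Mi V.toSubring Q e) {z : F} (hzP : z ∈ P)
    (hz : Pr φ z e) (hloc : IsLocalRing P) {n : ℕ}
    (hf : (⟨f, h.fP⟩ : P) ∈ maximalIdeal P ^ n) :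
    HS φ V (qt V.toSubring Q) (qt (AA F φ V) P) (f * z⁻¹ ^ n) := by
  classical
  have hreg := h.reg
  have R0 := h.toUS.regP
  have hmax : ∀ y : P, y ∈ maximalIdeal P ↔ NU (AA F φ V) (y : F) := fun y => R0.mem_max y
  have he' : Mi V.toSubring (im φ P) e := by rw [h.imQ]; exact he
  have hM : Mi (AA F φ V) P z := he'.lift h.PW hzP hz
  have hz0 : z ≠ 0 := hM.ne
  have he0 : e ≠ 0 := he.ne
  obtain ⟨κ, _, x', hx', -, -⟩ := regP_step loc_AA R0 hM
  have hzi : Pr φ z⁻¹ e⁻¹ := hz.inv he0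
  have hPP' : P ≤ qt (AA F φ V) P := le_qt _ _
  exact
    { PW := qt_le h.PW
      ic := ic_qt h.PW
      reg := hx'.reg
      SP := fun s => hPP' (h.SP s)
      imQ := by rw [im_qt h.PW he' hzP hz, h.imQ]
      fP := pow_div_mem h.PW hmax hM n _ hf
      f0 := by
        have h1 := h.f0.mul (hzi.pow n)
        rwa [zero_mul] at h1
      gen := by
        intro y hy
        obtain ⟨g, ⟨w, hw⟩, rfl⟩ := h.gen y hy
        refine ⟨g * z ^ n, ⟨_, hw.mul (hz.pow n)⟩, ?_⟩
        rw [inv_pow]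
        field_simp }

/-- Derivations of the initial ring. -/
theorem bd_init {D : S → K} (hD : Der φ D) (hφV : ∀ s, φ s ∈ V) (hDV : ∀ s, D s ∈ V) :
    lo (AA F φ V) (algebraMap S F).range ≤ BB F V hD 1 := by
  refine lo_le_BB hD ?_
  rintro _ ⟨s, rfl⟩
  refine ⟨φ s, hφV s, Pr.alg s, ?_⟩
  rw [dd_alg hD, one_mul]
  exact hDV s

theorem bd_next {D : S → K} (hD : Der φ D) {C : K} (hP : P ≤ AA F φ V)
    (hB : P ≤ BB F V hD C) {e : K} (he : Mi V.toSubring (im φ P) e) {z : F} (hzP : z ∈ P)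
    (hz : Pr φ z e) : qt (AA F φ V) P ≤ BB F V hD (C * e) := by
  have hM : Mi (AA F φ V) P z := he.lift hP hzP hz
  have hz0 : z ≠ 0 := hM.ne
  have he0 : e ≠ 0 := he.ne
  have hzi : Pr φ z⁻¹ e⁻¹ := hz.inv he0
  rw [qt_eq hP hM]
  refine lo_le_BB hD ?_
  rw [Subring.closure_le]
  rintro t (ht | ⟨y, hy, hyn, rfl⟩)
  · obtain ⟨w, hw, h1, h2⟩ := hB ht
    refine ⟨w, hw, h1, ?_⟩
    have h3 : C * e * dd φ D t = e * (C * dd φ D t) := by ring
    rw [h3]
    exact V.mul_mem _ _ ((V.valuation_le_one_iff _).1 he.lt.le) h2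
  · obtain ⟨w, hw, h1, h2⟩ := hB hy
    obtain ⟨w', hw', h1', h2'⟩ := hB hzP
    have h4 : w * e⁻¹ ∈ V := he.min w ⟨y, hy, h1⟩ ((Pr.nu h1).1 hyn)
    refine ⟨w * e⁻¹, h4, h1.mul hzi, ?_⟩
    rw [dd_mul hD h1 hzi, dd_inv hD hz he0]
    have h3 : C * e * (w * -(e⁻¹ * e⁻¹ * dd φ D z) + e⁻¹ * dd φ D y) =
        C * dd φ D y - w * e⁻¹ * (C * dd φ D z) := by
      field_simp
      ring
    rw [h3]
    exact V.sub_mem h2 (V.mul_mem _ _ h4 h2')

theorem dd_sq {D : S → K} (hD : Der φ D) {C : K} (hP : P ≤ AA F φ V) [IsLocalRing P]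
    (hmax : ∀ y : P, y ∈ maximalIdeal P ↔ NU (AA F φ V) (y : F))
    (hB : P ≤ BB F V hD C) : ∀ y ∈ maximalIdeal P ^ 2, V.valuation (C * dd φ D (y : F)) < 1 := by
  intro y hy
  rw [pow_two] at hy
  refine Submodule.mul_induction_on hy ?_ ?_
  · intro a ha b hb
    obtain ⟨wa, hwa, ha1, ha2⟩ := hB a.2
    obtain ⟨wb, hwb, hb1, hb2⟩ := hB b.2
    have h1 : V.valuation wa < 1 := nu_iff.1 ((Pr.nu ha1).1 ((hmax a).1 ha))
    have h2 : V.valuation wb < 1 := nu_iff.1 ((Pr.nu hb1).1 ((hmax b).1 hb))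
    change V.valuation (C * dd φ D ((a : F) * (b : F))) < 1
    rw [dd_mul hD ha1 hb1]
    have h3 : C * (wa * dd φ D (b : F) + wb * dd φ D (a : F)) =
        wa * (C * dd φ D (b : F)) + wb * (C * dd φ D (a : F)) := by ring
    rw [h3]
    refine Valuation.map_add_lt _ ?_ ?_
    · rw [map_mul]
      exact (mul_le_of_le_one_right' ((V.valuation_le_one_iff _).2 hb2)).trans_lt h1
    · rw [map_mul]
      exact (mul_le_of_le_one_right' ((V.valuation_le_one_iff _).2 ha2)).trans_lt h2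
  · intro a b ha hb
    obtain ⟨wa, hwa, ha1, ha2⟩ := hB a.2
    obtain ⟨wb, hwb, hb1, hb2⟩ := hB b.2
    change V.valuation (C * dd φ D ((a : F) + (b : F))) < 1
    rw [dd_add hD ha1 hb1, mul_add]
    exact Valuation.map_add_lt _ ha hb

end

end Pool.Agent.Y223.CC
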